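import Mathlib

/-! Kusmin–Landau type bound for exponential sums (cheap version, losing a constant depending on the
ratio of the largest and the smallest difference). -/

namespace Pool.Agent.StSP

open Finset

/-- `e(x) = exp(2πix)`. -/
noncomputable def e (x : ℝ) : ℂ := Complex.exp (Complex.I * ((2 * Real.pi * x : ℝ) : ℂ))

lemma norm_e (x : ℝ) : ‖e x‖ = 1 := by
  unfold e; rw [mul_comm]; exact Complex.norm_exp_ofReal_mul_I _

lemma e_add (x y : ℝ) : e (x + y) = e x * e y := by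
  unfold e; rw [← Complex.exp_add]; congr 1; push_cast; ring

lemma e_zero : e 0 = 1 := by simp [e]

lemma e_neg (x : ℝ) : e (-x) = (starRingEnd ℂ) (e x) := by
  unfold e; rw [← Complex.exp_conj, map_mul, Complex.conj_I, Complex.conj_ofReal]; congr 1
  push_cast; ring

lemma e_mul_conj (x y : ℝ) : e x * (starRingEnd ℂ) (e y) = e (x - y) := by
  rw [← e_neg, ← e_add]; rfl

lemma e_ne_zero (x : ℝ) : e x ≠ 0 := by unfold e; exact Complex.exp_ne_zero _

lemma norm_e_sub_one_le (x : ℝ) : ‖e x - 1‖ ≤ 2 * Real.pi * |x| := by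
  unfold e
  refine (Real.norm_exp_I_mul_ofReal_sub_one_le).trans ?_
  rw [Real.norm_eq_abs, abs_mul, abs_of_pos (by positivity)]

lemma norm_e_sub_e_le (x y : ℝ) : ‖e x - e y‖ ≤ 2 * Real.pi * |x - y| := by
  have : e x - e y = e y * (e (x - y) - 1) := by
    rw [mul_sub, ← e_add]; ring_nf
  rw [this, norm_mul, norm_e, one_mul]
  exact norm_e_sub_one_le _

lemma norm_one_sub_e_ge {x : ℝ} (h0 : 0 ≤ x) (h1 : x ≤ 1 / 2) : 4 * x ≤ ‖1 - e (-x)‖ := by
  have h : ‖1 - e (-x)‖ = ‖e x - 1‖ := by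
    have : e x - 1 = e x * (1 - e (-x)) := by
      rw [mul_sub, ← e_add]; simp [e_zero]
    rw [this, norm_mul, norm_e, one_mul]
  rw [h]; unfold e
  rw [Complex.norm_exp_I_mul_ofReal_sub_one]
  have h2 : 2 / Real.pi * (2 * Real.pi * x / 2) ≤ Real.sin (2 * Real.pi * x / 2) := by
    apply Real.mul_le_sin
    · positivity
    · nlinarith [Real.pi_pos]
  have h3 : 2 / Real.pi * (2 * Real.pi * x / 2) = 2 * x := by
    field_simp
  rw [h3] at h2
  calc 4 * x ≤ 2 * Real.sin (2 * Real.pi * x / 2) := by linarith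
    _ ≤ ‖2 * Real.sin (2 * Real.pi * x / 2)‖ := le_abs_self _

/-- Cheap Kusmin–Landau inequality. -/
theorem kusmin (g : ℕ → ℝ) (θ Δ : ℝ) (hθ : 0 < θ) (hD : 0 ≤ Δ) (hΔ : Δ ≤ 1 / 2) (a b : ℕ)
    (hlow : ∀ n, a < n → n ≤ b → θ ≤ g n - g (n + 1))
    (hup : ∀ n, a < n → n ≤ b → g n - g (n + 1) ≤ Δ)
    (hanti : ∀ n, a < n → n < b → g (n + 1) - g (n + 2) ≤ g n - g (n + 1)) :
    ‖∑ n ∈ Ioc a b, e (g n)‖ ≤ 1 / (2 * θ) + Real.pi * Δ / (8 * θ ^ 2) := by
  rcases Nat.lt_or_ge a b with hab | hab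
  swap
  · rw [Finset.Ioc_eq_empty (by omega)]
    simp only [sum_empty, norm_zero]
    positivity
  set δ : ℕ → ℝ := fun n => g n - g (n + 1) with hδ
  set w : ℕ → ℂ := fun n => (1 - e (-(δ n)))⁻¹ with hw
  have hne : ∀ n, a < n → n ≤ b → (1 - e (-(δ n))) ≠ 0 := by
    intro n h1 h2 h3
    have h4 := norm_one_sub_e_ge (x := δ n) (hθ.le.trans (hlow n h1 h2)) ((hup n h1 h2).trans hΔ)
    rw [h3, norm_zero] at h4
    have := hlow n h1 h2
    simp only [hδ] at h4
    linarith
  have hwn : ∀ n, a < n → n ≤ b → ‖w n‖ ≤ 1 / (4 * θ) := by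
    intro n h1 h2
    have h4 := norm_one_sub_e_ge (x := δ n) (hθ.le.trans (hlow n h1 h2)) ((hup n h1 h2).trans hΔ)
    simp only [hw, norm_inv]
    rw [one_div]
    apply inv_anti₀ (by positivity)
    have := hlow n h1 h2
    simp only [hδ] at h4 ⊢
    linarith
  have hz : ∀ n, a < n → n ≤ b → e (g n) = (e (g n) - e (g (n + 1))) * w n := by
    intro n h1 h2
    have h5 : e (g n) - e (g (n + 1)) = e (g n) * (1 - e (-(δ n))) := by
      rw [mul_sub, ← e_add]; simp [hδ]
    rw [h5, hw, mul_assoc, mul_inv_cancel₀ (hne n h1 h2), mul_one]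
  have key : ∀ m, a + 1 + m ≤ b → ‖∑ n ∈ Ioc a (a + 1 + m), e (g n) + e (g (a + 1 + m + 1)) * w (a + 1 + m)‖
      ≤ 1 / (4 * θ) + Real.pi / (8 * θ ^ 2) * (δ (a + 1) - δ (a + 1 + m)) := by
    intro m
    induction m with
    | zero =>
      intro hm
      have h1 := hz (a + 1) (by omega) (by omega)
      have h2 : ∑ n ∈ Ioc a (a + 1 + 0), e (g n) + e (g (a + 1 + 0 + 1)) * w (a + 1 + 0)
          = e (g (a + 1)) * w (a + 1) := by
        have : Ioc a (a + 1 + 0) = {a + 1} := by simp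
        rw [this, sum_singleton]
        simp only [add_zero]
        nth_rewrite 1 [h1]
        ring
      rw [h2, norm_mul, norm_e, one_mul]
      simp only [add_zero, sub_self, mul_zero]
      exact hwn _ (by omega) (by omega)
    | succ m ih =>
      intro hm
      have ih' := ih (by omega)
      set M := a + 1 + m with hM
      have hM1 : a + 1 + (m + 1) = M + 1 := by omega
      rw [hM1]
      have h1 := hz (M + 1) (by omega) (by omega)
      have h2 : ∑ n ∈ Ioc a (M + 1), e (g n) + e (g (M + 1 + 1)) * w (M + 1)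
          = (∑ n ∈ Ioc a M, e (g n) + e (g (M + 1)) * w M) + e (g (M + 1)) * (w (M + 1) - w M) := by
        rw [← Finset.insert_Ioc_right_eq_Ioc_add_one (by omega), sum_insert (by simp)]
        have h3 : e (g (M + 1)) + e (g (M + 1 + 1)) * w (M + 1) = e (g (M + 1)) * w (M + 1) := by
          nth_rewrite 1 [h1]; ring
        linear_combination h3
      rw [h2]
      have h4 : ‖w (M + 1) - w M‖ ≤ Real.pi / (8 * θ ^ 2) * (δ M - δ (M + 1)) := by
        have h5 : w (M + 1) - w M = w (M + 1) * w M * (e (-(δ (M + 1))) - e (-(δ M))) := by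
          have e1 := hne M (by omega) (by omega)
          have e2 := hne (M + 1) (by omega) (by omega)
          simp only [hw]
          field_simp
          ring
        rw [h5, norm_mul, norm_mul]
        have h6 := norm_e_sub_e_le (-(δ (M + 1))) (-(δ M))
        have h7 : |(-(δ (M + 1))) - (-(δ M))| = δ M - δ (M + 1) := by
          have := hanti M (by omega) (by omega)
          rw [abs_of_nonneg]
          · ring
          · simp only [hδ]; linarith
        rw [h7] at h6
        have h8 : 0 ≤ δ M - δ (M + 1) := by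
          have := hanti M (by omega) (by omega)
          simp only [hδ]; linarith
        calc ‖w (M + 1)‖ * ‖w M‖ * ‖e (-(δ (M + 1))) - e (-(δ M))‖
            ≤ (1 / (4 * θ)) * (1 / (4 * θ)) * (2 * Real.pi * (δ M - δ (M + 1))) := by
              gcongr
              · exact hwn _ (by omega) (by omega)
              · exact hwn _ (by omega) (by omega)
          _ = Real.pi / (8 * θ ^ 2) * (δ M - δ (M + 1)) := by
              field_simp; ring
      calc _ ≤ ‖∑ n ∈ Ioc a M, e (g n) + e (g (M + 1)) * w M‖ + ‖e (g (M + 1)) * (w (M + 1) - w M)‖ :=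
            norm_add_le _ _
        _ ≤ (1 / (4 * θ) + Real.pi / (8 * θ ^ 2) * (δ (a + 1) - δ M))
            + Real.pi / (8 * θ ^ 2) * (δ M - δ (M + 1)) := by
            rw [norm_mul, norm_e, one_mul]; exact add_le_add ih' h4
        _ = _ := by ring
  obtain ⟨m, hm⟩ := Nat.exists_eq_add_of_le (show a + 1 ≤ b by omega)
  have hk := key m (by omega)
  rw [← hm] at hk
  have h9 : ‖∑ n ∈ Ioc a b, e (g n)‖ ≤ (1 / (4 * θ) + Real.pi / (8 * θ ^ 2) * (δ (a + 1) - δ b)) + 1 / (4 * θ) := by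
    calc ‖∑ n ∈ Ioc a b, e (g n)‖
        = ‖(∑ n ∈ Ioc a b, e (g n) + e (g (b + 1)) * w b) - e (g (b + 1)) * w b‖ := by
          congr 1; ring
      _ ≤ ‖∑ n ∈ Ioc a b, e (g n) + e (g (b + 1)) * w b‖ + ‖e (g (b + 1)) * w b‖ := norm_sub_le _ _
      _ ≤ _ := by
        rw [norm_mul, norm_e, one_mul]
        exact add_le_add hk (hwn _ (by omega) (by omega))
  refine h9.trans ?_
  have h10 : δ (a + 1) ≤ Δ := hup _ (by omega) (by omega)
  have h11 : 0 ≤ δ b := hθ.le.trans (hlow _ (by omega) (by omega))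
  have h12 : Real.pi / (8 * θ ^ 2) * (δ (a + 1) - δ b) ≤ Real.pi / (8 * θ ^ 2) * Δ := by
    gcongr; linarith
  have h13 : Real.pi / (8 * θ ^ 2) * Δ = Real.pi * Δ / (8 * θ ^ 2) := by ring
  have h14 : 1 / (4 * θ) + 1 / (4 * θ) = 1 / (2 * θ) := by field_simp; norm_num
  linarith

end Pool.Agent.StSP
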