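import Mathlib
import Pool.Agent.StSP.Kusmin

/-! van der Corput's inequality. -/

namespace Pool.Agent.StSP

open Finset

lemma vdC_corr (u : ℕ → ℂ) (a b h k M : ℕ) (hM : b + k + h ≤ M) :
    ∑ m ∈ Ioc a M, (if a + k < m ∧ m ≤ b + k then u (m - k) else 0) *
      (starRingEnd ℂ) (if a + (k + h) < m ∧ m ≤ b + (k + h) then u (m - (k + h)) else 0)
      = ∑ n ∈ Ioc a (b - h), u (n + h) * (starRingEnd ℂ) (u n) := by
  symm
  apply Finset.sum_bij_ne_zero (i := fun n _ _ => n + (k + h))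
  · intro n hn _
    simp only [mem_Ioc] at hn ⊢
    omega
  · intro n _ _ n' _ _ hh
    simpa using hh
  · intro m hm hne
    simp only [mem_Ioc] at hm
    have h1 : (a + k < m ∧ m ≤ b + k) := by
      by_contra hc; rw [if_neg hc] at hne; simp at hne
    have h2 : (a + (k + h) < m ∧ m ≤ b + (k + h)) := by
      by_contra hc; rw [if_neg hc] at hne; simp at hne
    refine ⟨m - (k + h), ?_, ?_, ?_⟩
    · simp only [mem_Ioc]; omega
    · rw [if_pos h1, if_pos h2] at hne
      have : m - (k + h) + h = m - k := by omega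
      rw [this]; exact hne
    · omega
  · intro n hn _
    simp only [mem_Ioc] at hn
    rw [if_pos (by omega), if_pos (by omega)]
    have e1 : n + (k + h) - k = n + h := by omega
    have e2 : n + (k + h) - (k + h) = n := by omega
    rw [e1, e2]

lemma vdC_shift (u : ℕ → ℂ) (a b k M : ℕ) (hM : b + k ≤ M) :
    ∑ n ∈ Ioc a b, u n = ∑ m ∈ Ioc a M, (if a + k < m ∧ m ≤ b + k then u (m - k) else 0) := by
  rw [← Finset.sum_filter]
  symm
  apply Finset.sum_nbij' (i := fun m => m - k) (j := fun n => n + k)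
  · intro m hm; simp only [mem_filter, mem_Ioc] at hm ⊢; omega
  · intro m hm; simp only [mem_filter, mem_Ioc] at hm ⊢; omega
  · intro m hm; simp only [mem_filter, mem_Ioc] at hm ⊢; omega
  · intro m hm; simp only [mem_Ioc] at hm ⊢; omega
  · intro m hm; rfl

/-- van der Corput's inequality. -/
theorem vdC (u : ℕ → ℂ) (hu : ∀ n, ‖u n‖ ≤ 1) (a b N H : ℕ) (hN : b - a ≤ N) (hH : 1 ≤ H)
    (hHN : H ≤ N) :
    ‖∑ n ∈ Ioc a b, u n‖ ^ 2 ≤ (2 * N / H : ℝ) * (N + 2 * ∑ h ∈ Ico 1 H,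
      ‖∑ n ∈ Ioc a (b - h), u (n + h) * (starRingEnd ℂ) (u n)‖) := by
  rcases Nat.lt_or_ge a b with hab | hab
  swap
  · rw [Finset.Ioc_eq_empty (by omega)]
    simp only [sum_empty, norm_zero, ne_eq, OfNat.ofNat_ne_zero, not_false_eq_true, zero_pow]
    positivity
  set v : ℕ → ℕ → ℂ := fun k m => if a + k < m ∧ m ≤ b + k then u (m - k) else 0 with hv
  set M := b + H with hMdef
  set R : ℕ → ℝ := fun h => ‖∑ n ∈ Ioc a (b - h), u (n + h) * (starRingEnd ℂ) (u n)‖ with hR
  -- H * sum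
  have h1 : (H : ℂ) * ∑ n ∈ Ioc a b, u n = ∑ m ∈ Ioc a (b + H - 1), ∑ k ∈ range H, v k m := by
    rw [sum_comm]
    have : ∀ k ∈ range H, ∑ m ∈ Ioc a (b + H - 1), v k m = ∑ n ∈ Ioc a b, u n := by
      intro k hk
      rw [mem_range] at hk
      exact (vdC_shift u a b k (b + H - 1) (by omega)).symm
    rw [sum_congr rfl this, sum_const, card_range, nsmul_eq_mul]
  have h2 : (H : ℝ) ^ 2 * ‖∑ n ∈ Ioc a b, u n‖ ^ 2
      ≤ (2 * N) * ∑ m ∈ Ioc a (b + H - 1), ‖∑ k ∈ range H, v k m‖ ^ 2 := by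
    have h3 : (H : ℝ) * ‖∑ n ∈ Ioc a b, u n‖ ≤ ∑ m ∈ Ioc a (b + H - 1), ‖∑ k ∈ range H, v k m‖ := by
      calc (H : ℝ) * ‖∑ n ∈ Ioc a b, u n‖ = ‖(H : ℂ) * ∑ n ∈ Ioc a b, u n‖ := by
            rw [norm_mul]; simp
        _ ≤ _ := by rw [h1]; exact norm_sum_le _ _
    have h4 : (∑ m ∈ Ioc a (b + H - 1), ‖∑ k ∈ range H, v k m‖) ^ 2
        ≤ (#(Ioc a (b + H - 1)) : ℝ) * ∑ m ∈ Ioc a (b + H - 1), ‖∑ k ∈ range H, v k m‖ ^ 2 :=
      sq_sum_le_card_mul_sum_sq
    have h5 : (#(Ioc a (b + H - 1)) : ℝ) ≤ 2 * N := by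
      rw [Nat.card_Ioc]
      have : b + H - 1 - a ≤ 2 * N := by omega
      exact_mod_cast this
    calc (H : ℝ) ^ 2 * ‖∑ n ∈ Ioc a b, u n‖ ^ 2 = ((H : ℝ) * ‖∑ n ∈ Ioc a b, u n‖) ^ 2 := by ring
      _ ≤ (∑ m ∈ Ioc a (b + H - 1), ‖∑ k ∈ range H, v k m‖) ^ 2 := by gcongr
      _ ≤ _ := h4
      _ ≤ _ := by gcongr
  -- expand the square
  have h6 : ∑ m ∈ Ioc a (b + H - 1), ‖∑ k ∈ range H, v k m‖ ^ 2
      ≤ ∑ k ∈ range H, ∑ k' ∈ range H, ‖∑ m ∈ Ioc a (b + H - 1), v k m * (starRingEnd ℂ) (v k' m)‖ := by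
    have h7 : ((∑ m ∈ Ioc a (b + H - 1), ‖∑ k ∈ range H, v k m‖ ^ 2 : ℝ) : ℂ)
        = ∑ k ∈ range H, ∑ k' ∈ range H, ∑ m ∈ Ioc a (b + H - 1), v k m * (starRingEnd ℂ) (v k' m) := by
      push_cast
      have : ∀ m, ((‖∑ k ∈ range H, v k m‖ : ℂ)) ^ 2
          = ∑ k ∈ range H, ∑ k' ∈ range H, v k m * (starRingEnd ℂ) (v k' m) := by
        intro m
        rw [← Complex.mul_conj', map_sum, sum_mul_sum]
      simp_rw [this]
      rw [sum_comm]
      refine sum_congr rfl fun k _ => ?_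
      rw [sum_comm]
    have h8 : (∑ m ∈ Ioc a (b + H - 1), ‖∑ k ∈ range H, v k m‖ ^ 2 : ℝ)
        = ‖((∑ m ∈ Ioc a (b + H - 1), ‖∑ k ∈ range H, v k m‖ ^ 2 : ℝ) : ℂ)‖ := by
      rw [Complex.norm_real, Real.norm_of_nonneg (by positivity)]
    rw [h8, h7]
    refine (norm_sum_le _ _).trans (sum_le_sum fun k _ => norm_sum_le _ _)
  have h9 : ∀ k ∈ range H, ∀ k' ∈ range H,
      ‖∑ m ∈ Ioc a (b + H - 1), v k m * (starRingEnd ℂ) (v k' m)‖ = R (max k k' - min k k') := by
    intro k hk k' hk'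
    rw [mem_range] at hk hk'
    rcases le_total k k' with h | h
    · obtain ⟨j, rfl⟩ := Nat.exists_eq_add_of_le h
      have e1 : max k (k + j) - min k (k + j) = j := by omega
      rw [e1, hR]
      simp only [hv]
      rw [vdC_corr u a b j k (b + H - 1) (by omega)]
    · obtain ⟨j, rfl⟩ := Nat.exists_eq_add_of_le h
      have e1 : max (k' + j) k' - min (k' + j) k' = j := by omega
      rw [e1, hR]
      simp only [hv]
      rw [← vdC_corr u a b j k' (b + H - 1) (by omega), ← Complex.norm_conj, map_sum]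
      congr 1
      refine sum_congr rfl fun m _ => ?_
      rw [map_mul, Complex.conj_conj, mul_comm]
  have hRn : ∀ h, 0 ≤ R h := fun h => norm_nonneg _
  have h10 : ∑ k ∈ range H, ∑ k' ∈ range H, R (max k k' - min k k')
      ≤ H * (R 0 + 2 * ∑ h ∈ Ico 1 H, R h) := by
    have h12 : ∀ k ∈ range H, ∑ k' ∈ range H, R (max k k' - min k k')
        ≤ R 0 + 2 * ∑ h ∈ Ico 1 H, R h := by
      intro k hk
      rw [mem_range] at hk
      have e1 : ∑ k' ∈ range H, R (max k k' - min k k')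
          = ∑ k' ∈ range k, R (max k k' - min k k') + ∑ k' ∈ Ico k H, R (max k k' - min k k') := by
        rw [Finset.range_eq_Ico, ← Finset.sum_Ico_consecutive _ (Nat.zero_le k) hk.le,
          Finset.range_eq_Ico]
      have e2 : ∑ k' ∈ range k, R (max k k' - min k k') ≤ ∑ h ∈ Ico 1 H, R h := by
        have : ∑ k' ∈ range k, R (max k k' - min k k') = ∑ h ∈ Ico 1 (k + 1), R h := by
          apply Finset.sum_nbij' (i := fun m => k - m) (j := fun n => k - n)
          · intro m hm; simp only [mem_range, mem_Ico] at hm ⊢; omega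
          · intro m hm; simp only [mem_range, mem_Ico] at hm ⊢; omega
          · intro m hm; simp only [mem_range] at hm ⊢; omega
          · intro m hm; simp only [mem_Ico] at hm ⊢; omega
          · intro m hm
            simp only [mem_range] at hm
            have : max k m - min k m = k - m := by omega
            rw [this]
        rw [this]
        apply Finset.sum_le_sum_of_subset_of_nonneg
        · apply Finset.Ico_subset_Ico_right; omega
        · intro i _ _; exact hRn i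
      have e3 : ∑ k' ∈ Ico k H, R (max k k' - min k k') ≤ R 0 + ∑ h ∈ Ico 1 H, R h := by
        have : ∑ k' ∈ Ico k H, R (max k k' - min k k') = ∑ h ∈ Ico 0 (H - k), R h := by
          apply Finset.sum_nbij' (i := fun m => m - k) (j := fun n => n + k)
          · intro m hm; simp only [mem_Ico] at hm ⊢; omega
          · intro m hm; simp only [mem_Ico] at hm ⊢; omega
          · intro m hm; simp only [mem_Ico] at hm ⊢; omega
          · intro m hm; simp only [mem_Ico] at hm ⊢; omega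
          · intro m hm
            simp only [mem_Ico] at hm
            have : max k m - min k m = m - k := by omega
            rw [this]
        rw [this]
        have h0 : R 0 + ∑ h ∈ Ico 1 H, R h = ∑ h ∈ Ico 0 H, R h :=
          (Finset.sum_eq_sum_Ico_succ_bot (show 0 < H by omega) R).symm
        rw [h0]
        apply Finset.sum_le_sum_of_subset_of_nonneg
        · apply Finset.Ico_subset_Ico_right; omega
        · intro i _ _; exact hRn i
      rw [e1]; linarith
    calc _ ≤ ∑ k ∈ range H, (R 0 + 2 * ∑ h ∈ Ico 1 H, R h) := sum_le_sum h12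
      _ = _ := by rw [sum_const, card_range, nsmul_eq_mul]
  have h11 : R 0 ≤ N := by
    simp only [hR, Nat.sub_zero, add_zero]
    calc ‖∑ n ∈ Ioc a b, u n * (starRingEnd ℂ) (u n)‖ ≤ ∑ n ∈ Ioc a b, ‖u n * (starRingEnd ℂ) (u n)‖ :=
          norm_sum_le _ _
      _ ≤ ∑ n ∈ Ioc a b, (1:ℝ) := by
          refine sum_le_sum fun n _ => ?_
          rw [norm_mul, Complex.norm_conj]
          have := hu n
          have h0 := norm_nonneg (u n)
          nlinarith
      _ ≤ N := by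
          rw [sum_const, Nat.card_Ioc, nsmul_eq_mul, mul_one]; exact_mod_cast hN
  have hHpos : (0:ℝ) < H := by exact_mod_cast hH
  have h13 : (H : ℝ) ^ 2 * ‖∑ n ∈ Ioc a b, u n‖ ^ 2 ≤ (2 * N) * (H * (N + 2 * ∑ h ∈ Ico 1 H, R h)) := by
    refine h2.trans ?_
    apply mul_le_mul_of_nonneg_left _ (by positivity)
    refine h6.trans ?_
    have h14 : ∑ k ∈ range H, ∑ k' ∈ range H, ‖∑ m ∈ Ioc a (b + H - 1), v k m * (starRingEnd ℂ) (v k' m)‖
        = ∑ k ∈ range H, ∑ k' ∈ range H, R (max k k' - min k k') :=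
      sum_congr rfl fun k hk => sum_congr rfl fun k' hk' => h9 k hk k' hk'
    rw [h14]
    refine h10.trans ?_
    apply mul_le_mul_of_nonneg_left _ (by positivity)
    linarith
  have h15 : ‖∑ n ∈ Ioc a b, u n‖ ^ 2 ≤ ((2 * N) * (H * (N + 2 * ∑ h ∈ Ico 1 H, R h))) / H ^ 2 := by
    rw [le_div_iff₀ (by positivity)]; linarith
  refine h15.trans (le_of_eq ?_)
  field_simp

end Pool.Agent.StSP
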