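import Mathlib

/-! Iterated differences of `a! / x^(a+1)`. -/

namespace Pool.Agent.StSP

/-- iterated (sign-normalised) differences of `x ↦ a! / x^(a+1)` with the steps in the list. -/
noncomputable def G : List ℕ → ℕ → ℝ → ℝ
  | [], a, x => (a.factorial : ℝ) / x ^ (a + 1)
  | h :: hs, a, x => G hs a x - G hs a (x + h)

lemma hasDerivAt_G (hs : List ℕ) : ∀ (a : ℕ) {x : ℝ}, 0 < x →
    HasDerivAt (G hs a) (-(G hs (a + 1) x)) x := by
  induction hs with
  | nil =>
    intro a x hx
    have h1 : HasDerivAt (fun y : ℝ => (a.factorial : ℝ) * (y ^ (a + 1))⁻¹)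
        ((a.factorial : ℝ) * (-(((a + 1 : ℕ) : ℝ) * x ^ (a + 1 - 1)) / (x ^ (a + 1)) ^ 2)) x := by
      apply HasDerivAt.const_mul
      exact (hasDerivAt_pow (a + 1) x).inv (by positivity)
    have h2 : G [] a = fun y : ℝ => (a.factorial : ℝ) * (y ^ (a + 1))⁻¹ := by
      funext y; simp [G, div_eq_mul_inv]
    rw [h2]
    convert h1 using 1
    simp only [G, Nat.factorial_succ, Nat.add_sub_cancel]
    push_cast
    field_simp
    ring
  | cons h hs ih =>
    intro a x hx
    have h1 := ih a hx
    have h2 : HasDerivAt (fun y : ℝ => G hs a (y + h)) (-(G hs (a + 1) (x + h))) x := by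
      have h3 := ih a (x := x + h) (by positivity)
      exact h3.comp_add_const x (h : ℝ)
    have h4 := h1.sub h2
    have h5 : -(G (h :: hs) (a + 1) x) = -(G hs (a + 1) x) - -(G hs (a + 1) (x + h)) := by
      simp only [G]; ring
    rw [h5]
    exact h4

lemma G_bounds (hs : List ℕ) : ∀ (a : ℕ) {x : ℝ}, 0 < x →
    ((a + hs.length).factorial : ℝ) * hs.prod / (x + hs.sum) ^ (a + hs.length + 1) ≤ G hs a x ∧
    G hs a x ≤ ((a + hs.length).factorial : ℝ) * hs.prod / x ^ (a + hs.length + 1) := by
  induction hs with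
  | nil =>
    intro a x hx
    simp [G]
  | cons h hs ih =>
    intro a x hx
    rcases Nat.eq_zero_or_pos h with h0 | h0
    · subst h0
      simp [G]
    have hpos : (0:ℝ) < h := by exact_mod_cast h0
    obtain ⟨ξ, hξ, hd⟩ := exists_hasDerivAt_eq_slope (G hs a) (fun y => -(G hs (a + 1) y))
      (show x < x + h by linarith)
      (fun y hy => (hasDerivAt_G hs a (by linarith [hy.1] : 0 < y)).continuousAt.continuousWithinAt)
      (fun y hy => hasDerivAt_G hs a (by linarith [hy.1] : 0 < y))
    have h1 : G (h :: hs) a x = h * G hs (a + 1) ξ := by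
      simp only [G]
      rw [eq_div_iff (by linarith)] at hd
      linarith
    have hξ0 : 0 < ξ := by linarith [hξ.1]
    obtain ⟨l, u⟩ := ih (a + 1) hξ0
    have e1 : a + (h :: hs).length = a + 1 + hs.length := by simp; omega
    have hprod : ((h :: hs).prod : ℝ) = h * hs.prod := by simp
    rw [h1, e1]
    have hnn : (0:ℝ) ≤ (hs.prod : ℕ) := Nat.cast_nonneg _
    have hsn : (0:ℝ) ≤ (hs.sum : ℕ) := Nat.cast_nonneg _
    constructor
    · calc _ = (h:ℝ) * (((a + 1 + hs.length).factorial : ℝ) * hs.prod / (x + h + hs.sum) ^ (a + 1 + hs.length + 1)) := by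
            simp only [List.prod_cons, List.sum_cons]; push_cast; ring
        _ ≤ (h:ℝ) * (((a + 1 + hs.length).factorial : ℝ) * hs.prod / (ξ + hs.sum) ^ (a + 1 + hs.length + 1)) := by
            gcongr
            exact hξ.2.le
        _ ≤ _ := by gcongr
    · calc (h:ℝ) * G hs (a + 1) ξ ≤ (h:ℝ) * (((a + 1 + hs.length).factorial : ℝ) * hs.prod / ξ ^ (a + 1 + hs.length + 1)) := by
            gcongr
        _ ≤ (h:ℝ) * (((a + 1 + hs.length).factorial : ℝ) * hs.prod / x ^ (a + 1 + hs.length + 1)) := by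
            gcongr
            exact hξ.1.le
        _ = _ := by
            simp only [List.prod_cons]; push_cast; ring

lemma G_nonneg (hs : List ℕ) (a : ℕ) {x : ℝ} (hx : 0 < x) : 0 ≤ G hs a x :=
  le_trans (by positivity) (G_bounds hs a hx).1

end Pool.Agent.StSP
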