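import Mathlib
import Pool.Agent.StSP.Kusmin
import Pool.Agent.StSP.VdC
import Pool.Agent.StSP.Diff

/-! Iterated van der Corput differencing for the sums `∑ e(c/n)`. -/

namespace Pool.Agent.StSP

open Finset

lemma sum_inv_le (K : ℕ) : ∑ h ∈ Ioc 0 K, (h : ℝ)⁻¹ ≤ 1 + Real.log K := by
  have h := harmonic_le_one_add_log K
  rw [harmonic_eq_sum_Icc] at h
  push_cast at h
  exact h

lemma sum_Ico_inv_le (H : ℕ) : ∑ h ∈ Ico 1 H, (h : ℝ)⁻¹ ≤ 1 + Real.log H := by
  refine le_trans ?_ (sum_inv_le H)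
  apply Finset.sum_le_sum_of_subset_of_nonneg
  · intro x hx; simp only [mem_Ico, mem_Ioc] at hx ⊢; omega
  · intro i _ _; positivity

/-- The norm of the exponential sum with the differenced phase. -/
noncomputable def S (c : ℝ) (hs : List ℕ) (a b : ℕ) : ℝ := ‖∑ n ∈ Ioc a b, e (c * G hs 0 n)‖

lemma S_nonneg (c : ℝ) (hs : List ℕ) (a b : ℕ) : 0 ≤ S c hs a b := norm_nonneg _

/-- the constant in the last step -/
noncomputable def K0 (J : ℕ) : ℝ := ((J:ℝ) + 7) ^ (2 * (J + 2)) * 2 ^ (J + 1)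

lemma prod_le_pow (hs : List ℕ) (H : ℕ) (h : ∀ x ∈ hs, x ≤ H) : hs.prod ≤ H ^ hs.length := by
  induction hs with
  | nil => simp
  | cons x xs ih =>
    simp only [List.prod_cons, List.length_cons, pow_succ]
    rw [mul_comm (H ^ xs.length)]
    exact Nat.mul_le_mul (h x (by simp)) (ih fun y hy => h y (by simp [hy]))

lemma sum_le_mul (hs : List ℕ) (H : ℕ) (h : ∀ x ∈ hs, x ≤ H) : hs.sum ≤ hs.length * H := by
  induction hs with
  | nil => simp
  | cons x xs ih =>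
    simp only [List.sum_cons, List.length_cons]
    have := h x (by simp)
    have := ih fun y hy => h y (by simp [hy])
    nlinarith

lemma prod_pos_of (hs : List ℕ) (h : ∀ x ∈ hs, 1 ≤ x) : 1 ≤ hs.prod := by
  induction hs with
  | nil => simp
  | cons x xs ih =>
    simp only [List.prod_cons]
    exact Nat.mul_pos (h x (by simp)) (ih fun y hy => h y (by simp [hy]))

lemma base_bound (J L H : ℕ) (c : ℝ) (hc0 : 0 < c) (hH : 1 ≤ H) (hHL : H ≤ L)
    (hc1 : 2 * c * (J + 1).factorial * (H:ℝ) ^ J ≤ (L:ℝ) ^ (J + 2))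
    (hc2 : (L:ℝ) ^ (J + 2) ≤ 2 ^ (J + 1) * (c * (J + 1).factorial * (H:ℝ) ^ J))
    (hs : List ℕ) (hlen : hs.length = J) (hpos : ∀ x ∈ hs, 1 ≤ x) (hle : ∀ x ∈ hs, x ≤ H)
    (a b : ℕ) (ha : L ≤ a) (hb : b ≤ 6 * L) :
    S c hs a b ≤ K0 J * ((H:ℝ) ^ J / hs.prod) := by
  have hL : (0:ℝ) < L := by exact_mod_cast (by omega : 0 < L)
  have hL1 : (1:ℝ) ≤ L := by exact_mod_cast (by omega : 1 ≤ L)
  have hp : (0:ℝ) < (hs.prod : ℕ) := by exact_mod_cast prod_pos_of hs hpos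
  have hple : ((hs.prod : ℕ) : ℝ) ≤ (H:ℝ) ^ J := by
    rw [← hlen]; exact_mod_cast prod_le_pow hs H hle
  have hsum : ((hs.sum : ℕ) : ℝ) ≤ J * L := by
    have := sum_le_mul hs H hle
    rw [hlen] at this
    calc ((hs.sum : ℕ) : ℝ) ≤ ((J * H : ℕ) : ℝ) := by exact_mod_cast this
      _ ≤ J * L := by push_cast; gcongr
  set F : ℝ := ((J + 1).factorial : ℝ) with hF
  have hFpos : 0 < F := by positivity
  set X : ℝ := ((J:ℝ) + 7) ^ (J + 2) with hX
  have hX1 : 1 ≤ X := one_le_pow₀ (by linarith [Nat.cast_nonneg (α := ℝ) J])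
  set Δ : ℝ := c * (F * hs.prod / (L:ℝ) ^ (J + 2)) with hΔ
  set θ : ℝ := c * (F * hs.prod / (((J:ℝ) + 7) * L) ^ (J + 2)) with hθ
  have hθpos : 0 < θ := by positivity
  have hΔpos : 0 < Δ := by positivity
  have hrat : Δ = X * θ := by
    rw [hΔ, hθ, hX, mul_pow]
    have : (0:ℝ) < ((J:ℝ) + 7) ^ (J + 2) := by positivity
    field_simp
  have hg : ∀ n : ℕ, c * G hs 0 n - c * G hs 0 ((n + 1 : ℕ) : ℝ) = c * G (1 :: hs) 0 n := by
    intro n; simp only [G]; push_cast; ring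
  have key := kusmin (fun n => c * G hs 0 n) θ Δ hθpos hΔpos.le ?_ a b ?_ ?_ ?_
  · have e1 : 1 / (2 * θ) + Real.pi * Δ / (8 * θ ^ 2) ≤ X / θ := by
      rw [hrat]
      have : 1 / (2 * θ) + Real.pi * (X * θ) / (8 * θ ^ 2) = (1 / 2 + Real.pi / 8 * X) / θ := by
        field_simp
      rw [this]
      gcongr
      have := Real.pi_le_four
      nlinarith
    refine key.trans (e1.trans ?_)
    have e2 : X / θ = X ^ 2 * (L:ℝ) ^ (J + 2) / (c * F * hs.prod) := by
      rw [hθ, mul_pow, ← hX]; field_simp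
    rw [e2]
    have e3 : K0 J = X ^ 2 * 2 ^ (J + 1) := by rw [K0, hX, ← pow_mul]; ring_nf
    rw [e3, div_le_iff₀ (by positivity)]
    calc X ^ 2 * (L:ℝ) ^ (J + 2) ≤ X ^ 2 * (2 ^ (J + 1) * (c * F * (H:ℝ) ^ J)) := by gcongr
      _ = _ := by field_simp
  · rw [hΔ]
    have : F * hs.prod / (L:ℝ) ^ (J + 2) ≤ F * (H:ℝ) ^ J / (L:ℝ) ^ (J + 2) := by gcongr
    calc c * (F * hs.prod / (L:ℝ) ^ (J + 2)) ≤ c * (F * (H:ℝ) ^ J / (L:ℝ) ^ (J + 2)) := by gcongr
      _ ≤ 1 / 2 := by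
        rw [← mul_div_assoc, div_le_iff₀ (by positivity)]
        linarith
  · intro n h1 h2
    rw [hg]
    have hn : (0:ℝ) < n := by exact_mod_cast (by omega : 0 < n)
    have := (G_bounds (1 :: hs) 0 hn).1
    rw [hθ]
    apply mul_le_mul_of_nonneg_left _ hc0.le
    refine le_trans ?_ this
    simp only [List.length_cons, hlen, zero_add, List.prod_cons, one_mul, List.sum_cons, ← hF]
    have hn6 : (n:ℝ) ≤ 6 * L := by exact_mod_cast (by omega : n ≤ 6 * L)
    gcongr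
    rw [Nat.cast_add, Nat.cast_one]
    nlinarith
  · intro n h1 h2
    rw [hg]
    have hn : (0:ℝ) < n := by exact_mod_cast (by omega : 0 < n)
    have := (G_bounds (1 :: hs) 0 hn).2
    rw [hΔ]
    apply mul_le_mul_of_nonneg_left _ hc0.le
    refine this.trans ?_
    simp only [List.length_cons, hlen, zero_add, List.prod_cons, one_mul, ← hF]
    gcongr
    omega
  · intro n h1 h2
    have e1 : c * G hs 0 ((n + 1 : ℕ) : ℝ) - c * G hs 0 ((n + 2 : ℕ) : ℝ) = c * G (1 :: hs) 0 ((n + 1 : ℕ) : ℝ) :=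
      hg (n + 1)
    rw [e1, hg]
    have hn : (0:ℝ) < n := by exact_mod_cast (by omega : 0 < n)
    have := G_nonneg (1 :: 1 :: hs) 0 hn
    have e2 : G (1 :: 1 :: hs) 0 (n:ℝ) = G (1 :: hs) 0 n - G (1 :: hs) 0 ((n + 1 : ℕ) : ℝ) := by
      rw [show G (1 :: 1 :: hs) 0 (n:ℝ) = G (1 :: hs) 0 n - G (1 :: hs) 0 ((n:ℝ) + ((1:ℕ):ℝ)) from rfl]
      push_cast; rfl
    rw [e2] at this
    nlinarith

/-- the recursive constants -/
noncomputable def Cst : ℕ → ℝ
  | 0 => 1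
  | j + 1 => 4 ^ (2 ^ j) + 8 ^ (2 ^ j) * Cst j

lemma Cst_pos (j : ℕ) : 0 < Cst j := by
  induction j with
  | zero => simp [Cst]
  | succ j ih => simp only [Cst]; positivity

lemma add_pow_le_two (x y : ℝ) (hx : 0 ≤ x) (hy : 0 ≤ y) (k : ℕ) :
    (x + y) ^ k ≤ 2 ^ k * (x ^ k + y ^ k) := by
  have h1 : x + y ≤ 2 * max x y := by
    have := le_max_left x y
    have := le_max_right x y
    linarith
  calc (x + y) ^ k ≤ (2 * max x y) ^ k := by gcongr
    _ = 2 ^ k * (max x y) ^ k := by rw [mul_pow]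
    _ ≤ 2 ^ k * (x ^ k + y ^ k) := by
        gcongr
        rcases le_total x y with h | h
        · rw [max_eq_right h]; have := pow_nonneg hx k; linarith
        · rw [max_eq_left h]; have := pow_nonneg hy k; linarith

lemma mean_pow_le (H : ℕ) (hH : 1 ≤ H) (x : ℕ → ℝ) (hx : ∀ h, 0 ≤ x h) (k : ℕ) (hk : 1 ≤ k) :
    (1 / H * ∑ h ∈ Ico 1 H, x h) ^ k ≤ 1 / H * ∑ h ∈ Ico 1 H, x h ^ k := by
  obtain ⟨m, rfl⟩ := Nat.exists_eq_add_of_le' hk
  have hHpos : (0:ℝ) < H := by exact_mod_cast hH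
  rcases Nat.lt_or_ge 1 H with h1 | h1
  swap
  · have : Ico 1 H = ∅ := Ico_eq_empty (by omega)
    rw [this]; simp
  have hcard : #(Ico 1 H) = H - 1 := by simp
  have hc0 : (0:ℝ) < #(Ico 1 H) := by rw [hcard]; exact_mod_cast (by omega)
  have hc1 : (#(Ico 1 H) : ℝ) ≤ H := by rw [hcard]; exact_mod_cast (by omega)
  have key := pow_sum_div_card_le_sum_pow (s := Ico 1 H) (f := x) (fun i _ => hx i) m
  rw [div_le_iff₀ (by positivity)] at key
  rw [mul_pow]
  have hsn : 0 ≤ ∑ h ∈ Ico 1 H, x h ^ (m + 1) := sum_nonneg fun i _ => pow_nonneg (hx i) _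
  calc (1 / (H:ℝ)) ^ (m + 1) * (∑ h ∈ Ico 1 H, x h) ^ (m + 1)
      ≤ (1 / (H:ℝ)) ^ (m + 1) * ((∑ h ∈ Ico 1 H, x h ^ (m + 1)) * (H:ℝ) ^ m) := by
        gcongr
        exact key.trans (by gcongr)
    _ = _ := by
      have e1 : (1 / (H:ℝ)) ^ (m + 1) * (H:ℝ) ^ m = 1 / H := by
        rw [pow_succ, div_pow, one_pow]; field_simp
      linear_combination (∑ h ∈ Ico 1 H, x h ^ (m + 1)) * e1

lemma S_cons (c : ℝ) (hs : List ℕ) (a b h : ℕ) :
    ‖∑ n ∈ Ioc a b, e (c * G hs 0 ((n + h : ℕ) : ℝ)) * (starRingEnd ℂ) (e (c * G hs 0 n))‖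
      = S c (h :: hs) a b := by
  unfold S
  rw [← Complex.norm_conj (∑ n ∈ Ioc a b, e (c * G (h :: hs) 0 n)), map_sum]
  congr 1
  refine sum_congr rfl fun n _ => ?_
  rw [e_mul_conj, ← e_neg]
  congr 1
  simp only [G]; push_cast; ring

lemma vdC_S (c : ℝ) (hs : List ℕ) (a b N H : ℕ) (hN : b - a ≤ N) (hH : 1 ≤ H) (hHN : H ≤ N) :
    S c hs a b ^ 2 ≤ (2 * N / H : ℝ) * (N + 2 * ∑ h ∈ Ico 1 H, S c (h :: hs) a (b - h)) := by
  have h := vdC (fun n => e (c * G hs 0 n)) (fun n => (norm_e _).le) a b N H hN hH hHN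
  simp only [S_cons] at h
  exact h

theorem iter_bound (J L H : ℕ) (c : ℝ) (hc0 : 0 < c) (hH : 1 ≤ H) (hHL : H ≤ L)
    (hc1 : 2 * c * (J + 1).factorial * (H:ℝ) ^ J ≤ (L:ℝ) ^ (J + 2))
    (hc2 : (L:ℝ) ^ (J + 2) ≤ 2 ^ (J + 1) * (c * (J + 1).factorial * (H:ℝ) ^ J)) :
    ∀ (j : ℕ) (hs : List ℕ), hs.length + j = J → (∀ x ∈ hs, 1 ≤ x) → (∀ x ∈ hs, x ≤ H) →
    ∀ a b : ℕ, L ≤ a → b ≤ 6 * L →
    S c hs a b ^ (2 ^ j) ≤ Cst j * (6 * L : ℝ) ^ (2 ^ j) *
      (1 / H + K0 J / (6 * L) * (1 + Real.log H) ^ j * (H ^ hs.length / hs.prod)) := by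
  have hL : (0:ℝ) < L := by exact_mod_cast (by omega : 0 < L)
  have hHpos : (0:ℝ) < H := by exact_mod_cast hH
  have hlog : 0 ≤ Real.log H := Real.log_nonneg (by exact_mod_cast hH)
  have hK0 : 0 < K0 J := by unfold K0; positivity
  intro j
  induction j with
  | zero =>
    intro hs hlen hpos hle a b ha hb
    have h := base_bound J L H c hc0 hH hHL hc1 hc2 hs (by omega) hpos hle a b ha hb
    have hlen' : hs.length = J := by omega
    simp only [pow_zero, pow_one, Cst, one_mul, mul_one, hlen']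
    have : 6 * (L:ℝ) * (1 / H + K0 J / (6 * L) * (H ^ J / hs.prod))
        = 6 * L / H + K0 J * (H ^ J / hs.prod) := by
      field_simp
    rw [this]
    have h2 : (0:ℝ) ≤ 6 * L / H := by positivity
    linarith
  | succ j ih =>
    intro hs hlen hpos hle a b ha hb
    set k := 2 ^ j with hk
    have hk1 : 1 ≤ k := Nat.one_le_two_pow
    set N : ℕ := 6 * L with hN
    have hNr : ((N : ℕ) : ℝ) = 6 * L := by rw [hN]; push_cast; ring
    have hNpos : (0:ℝ) < N := by rw [hNr]; positivity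
    have hv := vdC_S c hs a b N H (by omega) hH (by omega)
    have hp : (0:ℝ) < (hs.prod : ℕ) := by exact_mod_cast prod_pos_of hs hpos
    have h1 : S c hs a b ^ (2 ^ (j + 1)) = (S c hs a b ^ 2) ^ k := by
      rw [← pow_mul, hk, pow_succ]; ring_nf
    set T : ℝ := 1 / H * ∑ h ∈ Ico 1 H, S c (h :: hs) a (b - h) with hT
    have hTn : 0 ≤ T := by
      rw [hT]; have : 0 ≤ ∑ h ∈ Ico 1 H, S c (h :: hs) a (b - h) := sum_nonneg fun i _ => S_nonneg _ _ _ _
      positivity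
    have h2 : S c hs a b ^ 2 ≤ 2 * N ^ 2 / H + 4 * N * T := by
      refine hv.trans (le_of_eq ?_)
      rw [hT]; field_simp; ring
    set Z : ℝ := K0 J / (6 * L) * (1 + Real.log H) ^ j with hZ
    have hZn : 0 ≤ Z := by positivity
    have h3 : T ^ k ≤ Cst j * (6 * L : ℝ) ^ k * (1 / H + Z * (1 + Real.log H) * (H ^ hs.length / hs.prod)) := by
      calc T ^ k ≤ 1 / H * ∑ h ∈ Ico 1 H, S c (h :: hs) a (b - h) ^ k :=
            mean_pow_le H hH _ (fun h => S_nonneg _ _ _ _) k hk1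
        _ ≤ 1 / H * ∑ h ∈ Ico 1 H, Cst j * (6 * L : ℝ) ^ k *
              (1 / H + Z * (H ^ (hs.length + 1) / (h * hs.prod))) := by
            gcongr with h hh
            rw [mem_Ico] at hh
            have := ih (h :: hs) (by simp only [List.length_cons]; omega)
              (by intro x hx; rcases List.mem_cons.1 hx with rfl | hx
                  · omega
                  · exact hpos x hx)
              (by intro x hx; rcases List.mem_cons.1 hx with rfl | hx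
                  · omega
                  · exact hle x hx) a (b - h) ha (by omega)
            simpa using this
        _ ≤ _ := by
            have e1 : ∀ h ∈ Ico 1 H, Cst j * (6 * L : ℝ) ^ k *
              (1 / H + Z * (H ^ (hs.length + 1) / (h * hs.prod)))
              = Cst j * (6 * L : ℝ) ^ k * (1 / H) +
                Cst j * (6 * L : ℝ) ^ k * (Z * (H ^ (hs.length + 1) / hs.prod)) * (h:ℝ)⁻¹ := by
              intro h hh
              rw [mem_Ico] at hh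
              have : (0:ℝ) < h := by exact_mod_cast hh.1
              field_simp
            rw [sum_congr rfl e1, sum_add_distrib, sum_const, nsmul_eq_mul,
              ← Finset.mul_sum (Ico 1 H) (fun h : ℕ => (h:ℝ)⁻¹)
                (Cst j * (6 * L : ℝ) ^ k * (Z * (H ^ (hs.length + 1) / hs.prod)))]
            have hcard : (#(Ico 1 H) : ℝ) ≤ H := by
              rw [Nat.card_Ico]; exact_mod_cast (by omega)
            have h4 := sum_Ico_inv_le H
            have hC := Cst_pos j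
            calc 1 / (H:ℝ) * (#(Ico 1 H) * (Cst j * (6 * L : ℝ) ^ k * (1 / H)) +
                  Cst j * (6 * L : ℝ) ^ k * (Z * (H ^ (hs.length + 1) / hs.prod)) * ∑ i ∈ Ico 1 H, (i:ℝ)⁻¹)
                ≤ 1 / (H:ℝ) * (H * (Cst j * (6 * L : ℝ) ^ k * (1 / H)) +
                  Cst j * (6 * L : ℝ) ^ k * (Z * (H ^ (hs.length + 1) / hs.prod)) * (1 + Real.log H)) := by
                  gcongr
              _ = _ := by
                  field_simp
                  ring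
    rw [h1]
    calc (S c hs a b ^ 2) ^ k ≤ (2 * N ^ 2 / H + 4 * N * T) ^ k := by
          gcongr
      _ ≤ 2 ^ k * ((2 * N ^ 2 / H) ^ k + (4 * N * T) ^ k) :=
          add_pow_le_two _ _ (by positivity) (by positivity) _
      _ ≤ 2 ^ k * (2 ^ k * (6 * L) ^ (2 ^ (j + 1)) * (1 / H) + 4 ^ k * (6 * L) ^ k *
            (Cst j * (6 * L : ℝ) ^ k * (1 / H + Z * (1 + Real.log H) * (H ^ hs.length / hs.prod)))) := by
          have e2 : (2 * (N:ℝ) ^ 2 / H) ^ k ≤ 2 ^ k * (6 * L) ^ (2 ^ (j + 1)) * (1 / H) := by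
            rw [hNr]
            have e3 : (2 * (6 * (L:ℝ)) ^ 2 / H) ^ k = 2 ^ k * (6 * L) ^ (2 ^ (j + 1)) * (1 / (H:ℝ) ^ k) := by
              rw [div_pow, mul_pow, ← pow_mul, hk, pow_succ]; ring_nf
            rw [e3]
            gcongr
            exact le_self_pow₀ (by exact_mod_cast hH) (by omega)
          have e4 : (4 * (N:ℝ) * T) ^ k = 4 ^ k * (6 * L) ^ k * T ^ k := by
            rw [hNr, mul_pow, mul_pow]
          rw [e4]
          gcongr
      _ ≤ _ := by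
          have hC := Cst_pos j
          have e5 : (6 * (L:ℝ)) ^ (2 ^ (j + 1)) = (6 * L) ^ k * (6 * L) ^ k := by
            rw [← pow_add, hk, pow_succ]; ring_nf
          simp only [Cst]
          rw [← hk, e5]
          have e6 : (4:ℝ) ^ k = 2 ^ k * 2 ^ k := by rw [← mul_pow]; norm_num
          have e7 : (8:ℝ) ^ k = 2 ^ k * 4 ^ k := by rw [← mul_pow]; norm_num
          have e8 : K0 J / (6 * L) * (1 + Real.log H) ^ (j + 1) = Z * (1 + Real.log H) := by
            rw [hZ, pow_succ]; ring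
          rw [e8, e7]
          set W : ℝ := Z * (1 + Real.log H) * (H ^ hs.length / hs.prod) with hW
          have hWn : 0 ≤ W := by positivity
          have e9 : (2:ℝ) ^ k * (2 ^ k * ((6 * (L:ℝ)) ^ k * (6 * (L:ℝ)) ^ k) * (1 / (H:ℝ)))
              ≤ 4 ^ k * ((6 * (L:ℝ)) ^ k * (6 * (L:ℝ)) ^ k) * (1 / H + W) := by
            rw [e6]
            calc (2:ℝ) ^ k * (2 ^ k * ((6 * (L:ℝ)) ^ k * (6 * (L:ℝ)) ^ k) * (1 / (H:ℝ)))
                = 2 ^ k * 2 ^ k * ((6 * (L:ℝ)) ^ k * (6 * (L:ℝ)) ^ k) * (1 / H) := by ring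
              _ ≤ _ := by gcongr; linarith
          calc _ = (2:ℝ) ^ k * (2 ^ k * ((6 * (L:ℝ)) ^ k * (6 * (L:ℝ)) ^ k) * (1 / (H:ℝ)))
                + 2 ^ k * 4 ^ k * Cst j * ((6 * (L:ℝ)) ^ k * (6 * (L:ℝ)) ^ k) * (1 / H + W) := by ring
            _ ≤ _ := by
                refine (add_le_add_left e9 _).trans (le_of_eq ?_)
                ring

end Pool.Agent.StSP
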