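import Mathlib
import Pool.Agent.StSP.Iter

/-! The sums `∑ e(c/n)` over intervals in `[L,6L]` with `L^2 ≤ |c| ≤ L^A` have a power saving. -/

namespace Pool.Agent.StSP

open Finset

lemma norm_sum_e_le (g : ℕ → ℝ) (a b : ℕ) : ‖∑ n ∈ Ioc a b, e (g n)‖ ≤ ((b - a : ℕ) : ℝ) := by
  refine (norm_sum_le _ _).trans ?_
  simp [norm_e]

lemma one_add_log_le (J : ℕ) (hJ : 1 ≤ J) (x : ℝ) (hx : 1 ≤ x) :
    (1 + Real.log x) ^ J ≤ (1 + 2 * J) ^ J * x ^ (1 / 2 : ℝ) := by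
  have hJ' : (0:ℝ) < J := by exact_mod_cast hJ
  have hx0 : (0:ℝ) < x := by linarith
  have h1 : Real.log x ≤ x ^ (1 / (2 * J) : ℝ) / (1 / (2 * J)) :=
    Real.log_le_rpow_div hx0.le (by positivity)
  have h2 : 1 ≤ x ^ (1 / (2 * J) : ℝ) := Real.one_le_rpow hx (by positivity)
  have h3 : 1 + Real.log x ≤ (1 + 2 * J) * x ^ (1 / (2 * J) : ℝ) := by
    have : x ^ (1 / (2 * J) : ℝ) / (1 / (2 * J)) = 2 * J * x ^ (1 / (2 * J) : ℝ) := by
      field_simp
    rw [this] at h1; linarith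
  have h4 : 0 ≤ 1 + Real.log x := by have := Real.log_nonneg hx; linarith
  calc (1 + Real.log x) ^ J ≤ ((1 + 2 * J) * x ^ (1 / (2 * J) : ℝ)) ^ J := by gcongr
    _ = (1 + 2 * J) ^ J * x ^ (1 / 2 : ℝ) := by
      rw [mul_pow, ← Real.rpow_natCast (x ^ (1 / (2 * J) : ℝ)) J, ← Real.rpow_mul hx0.le]
      congr 2
      field_simp

theorem one_var_pos (J : ℕ) (hJ : 1 ≤ J) : ∃ C η : ℝ, 0 < C ∧ 0 < η ∧ η ≤ 1 ∧
    ∀ (L : ℕ) (c : ℝ), 1 ≤ L → (L:ℝ) ^ 2 ≤ c → c ≤ (L:ℝ) ^ J → ∀ a b : ℕ, L ≤ a → b ≤ 6 * L →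
      ‖∑ n ∈ Ioc a b, e (c / n)‖ ≤ C * L * (L:ℝ) ^ (-η) := by
  have hJ' : (1:ℝ) ≤ J := by exact_mod_cast hJ
  set F : ℝ := ((J + 1).factorial : ℝ) with hF
  have hF1 : 1 ≤ F := by rw [hF]; exact_mod_cast Nat.factorial_pos _
  set k : ℕ := 2 ^ J with hk
  have hk1 : 1 ≤ k := Nat.one_le_two_pow
  have hk1' : (1:ℝ) ≤ k := by exact_mod_cast hk1
  have hK0 : 0 < K0 J := by unfold K0; positivity
  set M : ℝ := Cst J * (2 + K0 J * (1 + 2 * J) ^ J) with hM
  have hCst := Cst_pos J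
  have hMpos : 0 < M := by positivity
  set η : ℝ := 1 / (2 * J * k) with hη
  have hηpos : 0 < η := by positivity
  have hη1 : η ≤ 1 := by
    rw [hη, div_le_one (by positivity)]
    nlinarith
  refine ⟨(M + 1) * 6 + 12 * F, η, by positivity, hηpos, hη1, ?_⟩
  intro L c hL hcL hcU a b ha hb
  have hLr : (1:ℝ) ≤ L := by exact_mod_cast hL
  have hL0 : (0:ℝ) < L := by linarith
  have hLη : 0 < (L:ℝ) ^ (-η) := by positivity
  rcases lt_or_ge (L:ℝ) (2 * F) with hsm | hbig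
  · -- small L
    have h1 : ‖∑ n ∈ Ioc a b, e (c / n)‖ ≤ 6 * L := by
      refine (norm_sum_e_le (fun n => c / n) a b).trans ?_
      have : b - a ≤ 6 * L := by omega
      exact_mod_cast this
    have h2 : 1 / (2 * F) ≤ (L:ℝ) ^ (-η) := by
      rw [Real.rpow_neg hL0.le, one_div]
      apply inv_anti₀ (by positivity)
      calc (L:ℝ) ^ η ≤ (L:ℝ) ^ (1:ℝ) := Real.rpow_le_rpow_of_exponent_le hLr hη1
        _ = L := Real.rpow_one _
        _ ≤ 2 * F := hsm.le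
    calc _ ≤ 6 * (L:ℝ) := h1
      _ = 12 * F * L * (1 / (2 * F)) := by field_simp; norm_num
      _ ≤ 12 * F * L * (L:ℝ) ^ (-η) := by gcongr
      _ ≤ _ := by gcongr; linarith
  · -- large L
    have hc0 : 0 < c := lt_of_lt_of_le (by positivity) hcL
    classical
    set P : ℕ → Prop := fun h => 2 * c * F * (h:ℝ) ^ J ≤ (L:ℝ) ^ (J + 2) with hP
    set H := Nat.findGreatest P L with hH
    have hP1 : P 1 := by
      simp only [hP, Nat.cast_one, one_pow, mul_one]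
      calc 2 * c * F = 2 * F * c := by ring
        _ ≤ L * (L:ℝ) ^ J := by gcongr
        _ = (L:ℝ) ^ (J + 1) := by ring
        _ ≤ (L:ℝ) ^ (J + 2) := pow_le_pow_right₀ hLr (by omega)
    have hH1 : 1 ≤ H := Nat.le_findGreatest hL hP1
    have hPH : P H := Nat.findGreatest_spec (P := P) hL hP1
    have hHle : H ≤ L := Nat.findGreatest_le L
    have hHlt : H < L := by
      rcases Nat.lt_or_ge H L with h | h
      · exact h
      · exfalso
        have hHL : H = L := le_antisymm hHle h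
        rw [hHL] at hPH
        simp only [hP] at hPH
        have : (L:ℝ) ^ (J + 2) < 2 * c * F * (L:ℝ) ^ J := by
          calc (L:ℝ) ^ (J + 2) = (L:ℝ) ^ 2 * (L:ℝ) ^ J := by ring
            _ < 2 * (L:ℝ) ^ 2 * (L:ℝ) ^ J := by
              have : 0 < (L:ℝ) ^ 2 * (L:ℝ) ^ J := by positivity
              nlinarith
            _ ≤ 2 * c * (L:ℝ) ^ J := by gcongr
            _ ≤ 2 * c * F * (L:ℝ) ^ J := by
              have : 0 < 2 * c * (L:ℝ) ^ J := by positivity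
              nlinarith
        linarith
    have hnP : ¬ P (H + 1) := Nat.findGreatest_is_greatest (P := P) (n := L) (k := H + 1) (by omega) (by omega)
    simp only [hP, not_le] at hnP
    have hHr : (1:ℝ) ≤ H := by exact_mod_cast hH1
    have hH0 : (0:ℝ) < H := by linarith
    have h2H : ((H + 1 : ℕ) : ℝ) ≤ 2 * H := by push_cast; linarith
    have hc2 : (L:ℝ) ^ (J + 2) ≤ 2 ^ (J + 1) * (c * F * (H:ℝ) ^ J) := by
      calc (L:ℝ) ^ (J + 2) ≤ 2 * c * F * ((H + 1 : ℕ) : ℝ) ^ J := hnP.le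
        _ ≤ 2 * c * F * (2 * H) ^ J := by gcongr
        _ = _ := by rw [mul_pow]; ring
    have key := iter_bound J L H c hc0 hH1 hHle hPH hc2 J [] (by simp) (by simp) (by simp) a b ha hb
    have hS : S c [] a b = ‖∑ n ∈ Ioc a b, e (c / n)‖ := by
      unfold S; simp [G, div_eq_mul_inv]
    rw [hS] at key
    simp only [List.length_nil, pow_zero, List.prod_nil, Nat.cast_one, div_one, mul_one] at key
    -- bound 1/H
    have hHlow : (L:ℝ) ^ (1 / (J:ℝ)) ≤ 2 * H := by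
      have h1 : (L:ℝ) ≤ (2 * H) ^ J := by
        have h2 : (L:ℝ) ^ (J + 2) < 2 * c * F * (2 * H) ^ J := lt_of_lt_of_le hnP (by gcongr)
        have h3 : 2 * c * F * (2 * H) ^ J ≤ L * (L:ℝ) ^ J * (2 * H) ^ J := by
          have : 2 * c * F ≤ L * (L:ℝ) ^ J := by
            calc 2 * c * F = 2 * F * c := by ring
              _ ≤ L * (L:ℝ) ^ J := by gcongr
          gcongr
        have h4 : (L:ℝ) * (L * (L:ℝ) ^ J) < (2 * H) ^ J * (L * (L:ℝ) ^ J) := by
          calc (L:ℝ) * (L * (L:ℝ) ^ J) = (L:ℝ) ^ (J + 2) := by ring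
            _ < _ := lt_of_lt_of_le h2 h3
            _ = _ := by ring
        exact (lt_of_mul_lt_mul_right h4 (by positivity)).le
      calc (L:ℝ) ^ (1 / (J:ℝ)) ≤ ((2 * (H:ℝ)) ^ J) ^ (1 / (J:ℝ)) := by
            apply Real.rpow_le_rpow hL0.le h1 (by positivity)
        _ = 2 * H := by
            rw [← Real.rpow_natCast, ← Real.rpow_mul (by positivity)]
            have : (J:ℝ) * (1 / J) = 1 := by field_simp
            rw [this, Real.rpow_one]
    set X : ℝ := (L:ℝ) ^ (-(1 / (2 * J)) : ℝ) with hX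
    have hXpos : 0 < X := by positivity
    have hinvH : 1 / (H:ℝ) ≤ 2 * X := by
      have h1 : (L:ℝ) ^ (1 / (2 * J) : ℝ) ≤ (L:ℝ) ^ (1 / (J:ℝ)) := by
        apply Real.rpow_le_rpow_of_exponent_le hLr
        apply div_le_div_of_nonneg_left <;> linarith
      have h2 : 0 < (L:ℝ) ^ (1 / (2 * J) : ℝ) := by positivity
      rw [hX, Real.rpow_neg hL0.le, div_le_iff₀ hH0]
      rw [show 2 * ((L:ℝ) ^ (1 / (2 * J) : ℝ))⁻¹ * H = (2 * H) / (L:ℝ) ^ (1 / (2 * J) : ℝ) by ring]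
      rw [le_div_iff₀ h2]
      linarith
    have hlogH : 0 ≤ Real.log H := Real.log_nonneg hHr
    have hsecond : K0 J / (6 * L) * (1 + Real.log H) ^ J ≤ K0 J * (1 + 2 * J) ^ J * X := by
      have h1 : (1 + Real.log H) ^ J ≤ (1 + Real.log L) ^ J := by
        gcongr
      have h2 := one_add_log_le J hJ L hLr
      have h3 : (L:ℝ) ^ (1 / 2 : ℝ) ≤ L * X := by
        have e1 : (L:ℝ) * X = (L:ℝ) ^ (1 - 1 / (2 * J) : ℝ) := by
          rw [hX, show (1 - 1 / (2 * J) : ℝ) = 1 + -(1 / (2 * J)) by ring, Real.rpow_add hL0, Real.rpow_one]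
        rw [e1]
        apply Real.rpow_le_rpow_of_exponent_le hLr
        have : 1 / (2 * (J:ℝ)) ≤ 1 / 2 := by
          apply div_le_div_of_nonneg_left <;> linarith
        linarith
      calc K0 J / (6 * L) * (1 + Real.log H) ^ J
          ≤ K0 J / (6 * L) * ((1 + 2 * J) ^ J * (L * X)) := by
            gcongr
            exact h1.trans (h2.trans (by gcongr))
        _ = K0 J * (1 + 2 * J) ^ J * X / 6 := by field_simp
        _ ≤ K0 J * (1 + 2 * J) ^ J * X := by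
            have : 0 < K0 J * (1 + 2 * J) ^ J * X := by positivity
            linarith
    have key2 : ‖∑ n ∈ Ioc a b, e (c / n)‖ ^ k ≤ M * (6 * L) ^ k * X := by
      refine key.trans ?_
      calc Cst J * (6 * (L:ℝ)) ^ k * (1 / H + K0 J / (6 * L) * (1 + Real.log H) ^ J)
          ≤ Cst J * (6 * (L:ℝ)) ^ k * (2 * X + K0 J * (1 + 2 * J) ^ J * X) := by gcongr
        _ = _ := by rw [hM]; ring
    have hfin : ‖∑ n ∈ Ioc a b, e (c / n)‖ ≤ (M + 1) * (6 * L) * (L:ℝ) ^ (-η) := by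
      rw [← pow_le_pow_iff_left₀ (norm_nonneg _) (by positivity) (show k ≠ 0 by omega)]
      refine key2.trans ?_
      have e1 : ((L:ℝ) ^ (-η)) ^ k = X := by
        rw [← Real.rpow_natCast, ← Real.rpow_mul hL0.le, hX]
        congr 1
        rw [hη]; field_simp
      rw [mul_pow ((M + 1) * (6 * (L:ℝ))) _ k, mul_pow (M + 1) (6 * (L:ℝ)) k, e1]
      have e2 : M ≤ (M + 1) ^ k := by
        calc M ≤ M + 1 := by linarith
          _ ≤ (M + 1) ^ k := le_self_pow₀ (by linarith) (by omega)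
      gcongr
    refine hfin.trans ?_
    have : (M + 1) * (6 * L) * (L:ℝ) ^ (-η) = (M + 1) * 6 * L * (L:ℝ) ^ (-η) := by ring
    rw [this]
    gcongr
    linarith

theorem one_var (J : ℕ) (hJ : 1 ≤ J) : ∃ C η : ℝ, 0 < C ∧ 0 < η ∧ η ≤ 1 ∧
    ∀ (L : ℕ) (c : ℝ), 1 ≤ L → (L:ℝ) ^ 2 ≤ |c| → |c| ≤ (L:ℝ) ^ J → ∀ a b : ℕ, L ≤ a → b ≤ 6 * L →
      ‖∑ n ∈ Ioc a b, e (c / n)‖ ≤ C * L * (L:ℝ) ^ (-η) := by
  obtain ⟨C, η, hC, hη, hη1, h⟩ := one_var_pos J hJ
  refine ⟨C, η, hC, hη, hη1, ?_⟩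
  intro L c hL h1 h2 a b ha hb
  rcases le_total 0 c with hc | hc
  · rw [abs_of_nonneg hc] at h1 h2
    exact h L c hL h1 h2 a b ha hb
  · rw [abs_of_nonpos hc] at h1 h2
    have h3 := h L (-c) hL h1 h2 a b ha hb
    rw [← Complex.norm_conj, map_sum] at h3
    have h4 : ∀ n ∈ Ioc a b, (starRingEnd ℂ) (e (-c / n)) = e (c / n) := by
      intro n _
      rw [← e_neg]; congr 1; ring
    rw [sum_congr rfl h4] at h3
    exact h3

end Pool.Agent.StSP
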