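import Mathlib
import Pool.Agent.StSP.OneVar

/-! Vaughan's identity and tools. -/

namespace Pool.Agent.StSP

open Finset ArithmeticFunction
open scoped ArithmeticFunction.Moebius ArithmeticFunction.zeta

/-- `Λ` restricted to `n ≤ U`. -/
noncomputable def FU (U : ℕ) : ArithmeticFunction ℝ := ⟨fun n => if n ≤ U then Λ n else 0, by simp⟩

/-- `μ` restricted to `n ≤ U`. -/
noncomputable def GU (U : ℕ) : ArithmeticFunction ℝ :=
  ⟨fun n => if n ≤ U then ((μ n : ℤ) : ℝ) else 0, by simp⟩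

lemma FU_apply (U n : ℕ) : FU U n = if n ≤ U then Λ n else 0 := rfl
lemma GU_apply (U n : ℕ) : GU U n = if n ≤ U then ((μ n : ℤ) : ℝ) else 0 := rfl

/-- the long factor -/
noncomputable def BU (U : ℕ) : ArithmeticFunction ℝ := 1 - GU U * (ζ : ArithmeticFunction ℝ)

theorem vaughan (U : ℕ) :
    Λ = FU U + GU U * log - (FU U * GU U) * (ζ : ArithmeticFunction ℝ) + (Λ - FU U) * BU U := by
  unfold BU
  rw [← vonMangoldt_mul_zeta]
  ring

lemma sum_conv (f g : ArithmeticFunction ℝ) (w : ℕ → ℂ) (P Q : ℕ) :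
    ∑ n ∈ Ioc P Q, (((f * g) n : ℝ) : ℂ) * w n
      = ∑ d ∈ Ioc 0 Q, ((f d : ℝ) : ℂ) * ∑ k ∈ Ioc (P / d) (Q / d), ((g k : ℝ) : ℂ) * w (d * k) := by
  simp_rw [ArithmeticFunction.mul_apply, mul_sum]
  push_cast
  simp_rw [sum_mul]
  rw [sum_sigma', sum_sigma']
  refine Finset.sum_nbij' (i := fun x => ⟨x.2.1, x.2.2⟩) (j := fun y => ⟨y.1 * y.2, (y.1, y.2)⟩)
    ?_ ?_ ?_ ?_ ?_
  · rintro ⟨n, d, k⟩ h
    simp only [mem_sigma, mem_Ioc, Nat.mem_divisorsAntidiagonal] at h ⊢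
    obtain ⟨⟨h1, h2⟩, h3, h4⟩ := h
    have hd : 0 < d := Nat.pos_of_ne_zero (by rintro rfl; simp at h3; exact h4 h3.symm)
    have hk : 0 < k := Nat.pos_of_ne_zero (by rintro rfl; simp at h3; exact h4 h3.symm)
    refine ⟨⟨hd, ?_⟩, ?_, ?_⟩
    · calc d ≤ d * k := Nat.le_mul_of_pos_right _ hk
        _ ≤ Q := by omega
    · rw [Nat.div_lt_iff_lt_mul hd]; rw [mul_comm]; omega
    · rw [Nat.le_div_iff_mul_le hd]; rw [mul_comm]; omega
  · rintro ⟨d, k⟩ h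
    simp only [mem_sigma, mem_Ioc, Nat.mem_divisorsAntidiagonal] at h ⊢
    obtain ⟨⟨hd, h2⟩, h3, h4⟩ := h
    rw [Nat.div_lt_iff_lt_mul hd, mul_comm] at h3
    rw [Nat.le_div_iff_mul_le hd, mul_comm] at h4
    exact ⟨⟨h3, h4⟩, trivial, by omega⟩
  · rintro ⟨n, d, k⟩ h
    simp only [mem_sigma, mem_Ioc, Nat.mem_divisorsAntidiagonal] at h
    obtain ⟨_, h3, _⟩ := h
    subst h3; rfl
  · rintro ⟨d, k⟩ h; rfl
  · rintro ⟨n, d, k⟩ h
    simp only [mem_sigma, mem_Ioc, Nat.mem_divisorsAntidiagonal] at h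
    obtain ⟨_, h3, _⟩ := h
    subst h3
    simp only
    ring

/-- Abel summation with a nonnegative monotone weight. -/
lemma abel_mono (w : ℕ → ℝ) (z : ℕ → ℂ) (a b : ℕ) (B : ℝ) (hB0 : 0 ≤ B) (hw0 : 0 ≤ w a)
    (hw : ∀ n, a ≤ n → n < b → w n ≤ w (n + 1)) (hab : a ≤ b)
    (hB : ∀ t, a ≤ t → t ≤ b → ‖∑ n ∈ Ioc a t, z n‖ ≤ B) :
    ‖∑ n ∈ Ioc a b, (w n : ℂ) * z n‖ ≤ 2 * w b * B := by
  have key : ∀ m, a + m ≤ b → 0 ≤ w (a + m) ∧ ‖∑ n ∈ Ioc a (a + m), (w n : ℂ) * z n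
      - (w (a + m) : ℂ) * ∑ n ∈ Ioc a (a + m), z n‖ ≤ (w (a + m) - w a) * B := by
    intro m
    induction m with
    | zero => intro _; simp [hw0]
    | succ m ih =>
      intro hm
      obtain ⟨h0, ih'⟩ := ih (by omega)
      have hmono := hw (a + m) (by omega) (by omega)
      refine ⟨by rw [← add_assoc]; linarith, ?_⟩
      have e1 : a + (m + 1) = (a + m) + 1 := by omega
      rw [e1, ← Finset.insert_Ioc_right_eq_Ioc_add_one (by omega), sum_insert (by simp),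
        sum_insert (by simp)]
      set Z := ∑ n ∈ Ioc a (a + m), z n with hZ
      set T := ∑ n ∈ Ioc a (a + m), (w n : ℂ) * z n with hT
      have e2 : (w (a + m + 1) : ℂ) * z (a + m + 1) + T - (w (a + m + 1) : ℂ) * (z (a + m + 1) + Z)
          = (T - (w (a + m) : ℂ) * Z) + ((w (a + m) - w (a + m + 1) : ℝ) : ℂ) * Z := by
        push_cast; ring
      rw [e2]
      have hZb : ‖Z‖ ≤ B := hB (a + m) (by omega) (by omega)
      calc _ ≤ ‖T - (w (a + m) : ℂ) * Z‖ + ‖((w (a + m) - w (a + m + 1) : ℝ) : ℂ) * Z‖ := norm_add_le _ _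
        _ ≤ (w (a + m) - w a) * B + (w (a + m + 1) - w (a + m)) * B := by
          rw [norm_mul, Complex.norm_real, Real.norm_eq_abs, abs_sub_comm, abs_of_nonneg (by linarith)]
          gcongr
        _ = _ := by ring
  obtain ⟨m, rfl⟩ := Nat.exists_eq_add_of_le hab
  obtain ⟨h0, h1⟩ := key m le_rfl
  have hZb : ‖∑ n ∈ Ioc a (a + m), z n‖ ≤ B := hB (a + m) (by omega) le_rfl
  calc ‖∑ n ∈ Ioc a (a + m), (w n : ℂ) * z n‖
      = ‖(∑ n ∈ Ioc a (a + m), (w n : ℂ) * z n - (w (a + m) : ℂ) * ∑ n ∈ Ioc a (a + m), z n)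
          + (w (a + m) : ℂ) * ∑ n ∈ Ioc a (a + m), z n‖ := by congr 1; ring
    _ ≤ _ := norm_add_le _ _
    _ ≤ (w (a + m) - w a) * B + w (a + m) * B := by
        rw [norm_mul, Complex.norm_real, Real.norm_eq_abs, abs_of_nonneg h0]
        gcongr
    _ ≤ 2 * w (a + m) * B := by nlinarith

/-- sum over pairs -/
lemma sum_antidiag_le (h : ℕ → ℝ) (hh : ∀ n, 0 ≤ h n) (W : ℕ) :
    ∑ k ∈ Ioc 0 W, ∑ x ∈ k.divisorsAntidiagonal, h x.1 * h x.2 ≤ (∑ a ∈ Ioc 0 W, h a) ^ 2 := by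
  rw [sq, sum_mul_sum, ← sum_product', sum_sigma']
  have h1 : ∑ x ∈ (Ioc 0 W).sigma (fun k => k.divisorsAntidiagonal), h x.2.1 * h x.2.2
      = ∑ y ∈ ((Ioc 0 W).sigma (fun k => k.divisorsAntidiagonal)).image (fun x => x.2), h y.1 * h y.2 := by
    rw [sum_image]
    rintro ⟨n, d, k⟩ hx ⟨n', d', k'⟩ hx' he
    simp only [coe_sigma, Set.mem_sigma_iff, mem_coe, mem_Ioc, Nat.mem_divisorsAntidiagonal] at hx hx'
    simp only [Prod.mk.injEq] at he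
    obtain ⟨rfl, rfl⟩ := he
    obtain ⟨_, rfl, _⟩ := hx
    obtain ⟨_, rfl, _⟩ := hx'
    rfl
  rw [h1]
  apply sum_le_sum_of_subset_of_nonneg
  · intro y hy
    simp only [mem_image, mem_sigma, mem_Ioc, Nat.mem_divisorsAntidiagonal] at hy
    obtain ⟨⟨n, d, k⟩, ⟨⟨h1, h2⟩, h3, h4⟩, rfl⟩ := hy
    simp only at h1 h2 h3 h4
    have hd : 0 < d := Nat.pos_of_ne_zero (by rintro rfl; simp at h3; exact h4 h3.symm)
    have hk : 0 < k := Nat.pos_of_ne_zero (by rintro rfl; simp at h3; exact h4 h3.symm)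
    simp only [mem_product, mem_Ioc]
    refine ⟨⟨hd, ?_⟩, hk, ?_⟩
    · calc d ≤ d * k := Nat.le_mul_of_pos_right _ hk
        _ ≤ W := by omega
    · calc k ≤ d * k := Nat.le_mul_of_pos_left _ hd
        _ ≤ W := by omega
  · intro i _ _; exact mul_nonneg (hh _) (hh _)

lemma sum_tau_div_le (W : ℕ) :
    ∑ k ∈ Ioc 0 W, (#k.divisors : ℝ) / k ≤ (∑ a ∈ Ioc 0 W, (a:ℝ)⁻¹) ^ 2 := by
  refine le_trans (le_of_eq ?_) (sum_antidiag_le (fun n => (n:ℝ)⁻¹) (fun n => by positivity) W)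
  refine sum_congr rfl fun k hk => ?_
  rw [mem_Ioc] at hk
  have : ∀ x ∈ k.divisorsAntidiagonal, ((x.1:ℝ)⁻¹ * (x.2:ℝ)⁻¹) = (k:ℝ)⁻¹ := by
    intro x hx
    rw [Nat.mem_divisorsAntidiagonal] at hx
    rw [← mul_inv, ← hx.1]; push_cast; rfl
  rw [sum_congr rfl this, sum_const, nsmul_eq_mul, div_eq_mul_inv]
  congr 2
  rw [← Nat.map_div_right_divisors, card_map]

lemma card_divisors_mul_le (a b : ℕ) : #(a * b).divisors ≤ #a.divisors * #b.divisors := by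
  rw [Nat.divisors_mul]
  exact card_mul_le

lemma sum_tau_sq_div_le (W : ℕ) :
    ∑ k ∈ Ioc 0 W, (#k.divisors : ℝ) ^ 2 / k ≤ (∑ k ∈ Ioc 0 W, (#k.divisors : ℝ) / k) ^ 2 := by
  refine le_trans ?_ (sum_antidiag_le (fun n => (#n.divisors : ℝ) / n) (fun n => by positivity) W)
  refine sum_le_sum fun k hk => ?_
  rw [mem_Ioc] at hk
  have h1 : (#k.divisors : ℝ) ^ 2 / k = ∑ x ∈ k.divisorsAntidiagonal, (#k.divisors : ℝ) / k := by
    rw [sum_const, nsmul_eq_mul, ← Nat.map_div_right_divisors, card_map]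
    ring
  rw [h1]
  refine sum_le_sum fun x hx => ?_
  rw [Nat.mem_divisorsAntidiagonal] at hx
  have h2 : (#k.divisors : ℝ) ≤ #x.1.divisors * #x.2.divisors := by
    rw [← hx.1]; exact_mod_cast card_divisors_mul_le _ _
  calc (#k.divisors : ℝ) / k ≤ (#x.1.divisors * #x.2.divisors : ℝ) / k := by gcongr
    _ = _ := by
      rw [← hx.1]; push_cast
      rw [div_mul_div_comm]

end Pool.Agent.StSP
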