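import Mathlib
import Pool.Agent.StSP.Vaughan

/-! Type I sums. -/

namespace Pool.Agent.StSP

open Finset ArithmeticFunction
open scoped ArithmeticFunction.Moebius ArithmeticFunction.zeta

/-- the conclusion of `one_var` -/
def OV (A : ℕ) (C η : ℝ) : Prop :=
  ∀ (L : ℕ) (c : ℝ), 1 ≤ L → (L:ℝ) ^ 2 ≤ |c| → |c| ≤ (L:ℝ) ^ (2 * A) → ∀ a b : ℕ, L ≤ a → b ≤ 6 * L →
      ‖∑ n ∈ Ioc a b, e (c / n)‖ ≤ C * L * (L:ℝ) ^ (-η)

/-- the saving -/
noncomputable def XU (η : ℝ) (U : ℕ) : ℝ := (U:ℝ) ^ (-(η / 2))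

/-- the logarithm -/
noncomputable def lU (U : ℕ) : ℝ := 1 + Real.log (3 * (U:ℝ) ^ 3)

lemma XU_pos (η : ℝ) (U : ℕ) (hU : 1 ≤ U) : 0 < XU η U := by
  have : (0:ℝ) < U := by exact_mod_cast hU
  unfold XU; positivity

lemma one_le_lU (U : ℕ) (hU : 1 ≤ U) : 1 ≤ lU U := by
  have h1 : (1:ℝ) ≤ U := by exact_mod_cast hU
  have : 0 ≤ Real.log (3 * (U:ℝ) ^ 3) := by
    apply Real.log_nonneg
    have : 1 ≤ (U:ℝ) ^ 3 := one_le_pow₀ h1
    linarith
  unfold lU; linarith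

lemma log_le_lU (U n : ℕ) (hn : 1 ≤ n) (h : n ≤ 3 * U ^ 3) : 1 + Real.log n ≤ lU U := by
  unfold lU
  have h1 : (0:ℝ) < n := by exact_mod_cast hn
  have : Real.log n ≤ Real.log (3 * (U:ℝ) ^ 3) := by
    apply Real.log_le_log h1
    exact_mod_cast h
  linarith

lemma rpow_le_XU {η : ℝ} (hη : 0 < η) (U L : ℕ) (hL : 1 ≤ L) (hLU : U ≤ L ^ 2) (hU : 1 ≤ U) :
    (L:ℝ) ^ (-η) ≤ XU η U := by
  have hL0 : (0:ℝ) < L := by exact_mod_cast hL
  have hU0 : (0:ℝ) < U := by exact_mod_cast hU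
  unfold XU
  rw [Real.rpow_neg hL0.le, Real.rpow_neg hU0.le]
  apply inv_anti₀ (by positivity)
  calc (U:ℝ) ^ (η / 2) ≤ ((L:ℝ) ^ 2) ^ (η / 2) := by
        apply Real.rpow_le_rpow hU0.le _ (by positivity)
        exact_mod_cast hLU
    _ = (L:ℝ) ^ η := by
        rw [← Real.rpow_natCast, ← Real.rpow_mul hL0.le]
        congr 1; push_cast; ring

lemma typeI_inner {A : ℕ} {C η : ℝ} (hC : 0 < C) (hη : 0 < η) (hov : OV A C η) (U : ℕ) (hU : 13 ≤ U)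
    (c : ℝ) (hc1 : (U:ℝ) ^ 9 ≤ |c|) (hc2 : |c| ≤ (U:ℝ) ^ A) (d : ℕ) (hd : 1 ≤ d) (hd2 : d ≤ U ^ 2)
    (t : ℕ) (ht : t ≤ 3 * U ^ 3 / d) :
    ‖∑ k ∈ Ioc (U ^ 3 / d) t, e (c / ((d * k : ℕ) : ℝ))‖ ≤ C * ((U:ℝ) ^ 3 / d) * XU η U := by
  set L := U ^ 3 / d with hL
  have hUL : U ≤ L := by
    rw [hL, Nat.le_div_iff_mul_le (by omega)]
    calc U * d ≤ U * U ^ 2 := Nat.mul_le_mul_left _ hd2
      _ = U ^ 3 := by ring
  have hd0 : (0:ℝ) < d := by exact_mod_cast hd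
  have hL1 : 1 ≤ L := by omega
  have hLr : (L:ℝ) ≤ (U:ℝ) ^ 3 / d := by
    rw [hL]; exact_mod_cast Nat.cast_div_le (α := ℝ)
  have hU0 : (1:ℝ) ≤ U := by exact_mod_cast (by omega : 1 ≤ U)
  have hd1 : (1:ℝ) ≤ d := by exact_mod_cast hd
  have h1 : (L:ℝ) ^ 2 ≤ |c / d| := by
    rw [abs_div, abs_of_pos hd0]
    calc (L:ℝ) ^ 2 ≤ ((U:ℝ) ^ 3 / d) ^ 2 := by gcongr
      _ = (U:ℝ) ^ 6 / (d * d) := by ring
      _ ≤ (U:ℝ) ^ 9 / (d * d) :=
          div_le_div_of_nonneg_right (pow_le_pow_right₀ hU0 (by norm_num)) (by positivity)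
      _ ≤ (U:ℝ) ^ 9 / (1 * d) := by gcongr
      _ = (U:ℝ) ^ 9 / d := by rw [one_mul]
      _ ≤ |c| / d := by gcongr
  have h2 : |c / d| ≤ (L:ℝ) ^ (2 * A) := by
    rw [abs_div, abs_of_pos hd0]
    calc |c| / d ≤ |c| / 1 := by gcongr
      _ ≤ (U:ℝ) ^ A := by rw [div_one]; exact hc2
      _ ≤ (L:ℝ) ^ A := by gcongr
      _ ≤ (L:ℝ) ^ (2 * A) := pow_le_pow_right₀ (by exact_mod_cast hL1) (by omega)
  have hb : t ≤ 6 * L := by
    have h3 : 3 * U ^ 3 / d ≤ 3 * L + 2 := by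
      have : 3 * U ^ 3 / d < 3 * L + 3 := by
        rw [Nat.div_lt_iff_lt_mul (by omega)]
        have h4 : U ^ 3 < (L + 1) * d := by
          have := Nat.lt_mul_div_succ (U ^ 3) (show 0 < d by omega)
          rw [← hL] at this
          linarith [mul_comm d (L + 1)]
        nlinarith
      omega
    omega
  have key := hov L (c / d) hL1 h1 h2 L t le_rfl hb
  have e1 : ∀ k ∈ Ioc L t, e (c / ((d * k : ℕ) : ℝ)) = e (c / d / k) := by
    intro k _; push_cast; rw [div_div]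
  rw [sum_congr rfl e1]
  refine key.trans ?_
  have := rpow_le_XU hη U L hL1 (by nlinarith) (by omega)
  gcongr

lemma GU_abs_le (U n : ℕ) : |GU U n| ≤ 1 := by
  rw [GU_apply]
  split_ifs
  · exact_mod_cast abs_moebius_le_one
  · simp

lemma typeI_log {A : ℕ} {C η : ℝ} (hC : 0 < C) (hη : 0 < η) (hov : OV A C η) (U : ℕ) (hU : 13 ≤ U)
    (c : ℝ) (hc1 : (U:ℝ) ^ 9 ≤ |c|) (hc2 : |c| ≤ (U:ℝ) ^ A) :
    ‖∑ n ∈ Ioc (U ^ 3) (3 * U ^ 3), (((GU U * log) n : ℝ) : ℂ) * e (c / n)‖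
      ≤ 2 * C * (U:ℝ) ^ 3 * XU η U * lU U ^ 2 := by
  rw [sum_conv]
  have hX := XU_pos η U (by omega)
  have hl := one_le_lU U (by omega)
  have hU3 : U ≤ U ^ 3 := Nat.le_self_pow (by norm_num) U
  have h1 : ∀ d ∈ Ioc 0 (3 * U ^ 3), ‖((GU U d : ℝ) : ℂ) * ∑ k ∈ Ioc (U ^ 3 / d) (3 * U ^ 3 / d),
      ((log k : ℝ) : ℂ) * e (c / ((d * k : ℕ) : ℝ))‖ ≤
      if d ≤ U then 2 * C * (U:ℝ) ^ 3 * XU η U * lU U * (d:ℝ)⁻¹ else 0 := by
    intro d hd
    rw [mem_Ioc] at hd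
    split_ifs with hdU
    · rw [norm_mul, Complex.norm_real, Real.norm_eq_abs]
      have hg := GU_abs_le U d
      have hdU2 : d ≤ U ^ 2 := hdU.trans (Nat.le_self_pow (by norm_num) U)
      have hinner := abel_mono (fun k => log k) (fun k => e (c / ((d * k : ℕ) : ℝ))) (U ^ 3 / d)
        (3 * U ^ 3 / d) (C * ((U:ℝ) ^ 3 / d) * XU η U) (by positivity)
        (by simp only [log_apply]; exact Real.log_natCast_nonneg _)
        (by
          intro n h1 h2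
          simp only [log_apply]
          rcases Nat.eq_zero_or_pos n with h0 | h0
          · subst h0; simp
          · apply Real.log_le_log (by exact_mod_cast h0); push_cast; linarith)
        (Nat.div_le_div_right (by omega))
        (fun t _ ht => typeI_inner hC hη hov U hU c hc1 hc2 d hd.1 hdU2 t ht)
      have hlog : (log (3 * U ^ 3 / d) : ℝ) ≤ lU U := by
        rw [log_apply]
        have h5 : 1 ≤ 3 * U ^ 3 / d := by
          rw [Nat.le_div_iff_mul_le (by omega)]; omega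
        have := log_le_lU U (3 * U ^ 3 / d) h5 (Nat.div_le_self _ _)
        linarith
      calc _ ≤ 1 * (2 * log (3 * U ^ 3 / d) * (C * ((U:ℝ) ^ 3 / d) * XU η U)) := by
            gcongr
        _ ≤ 1 * (2 * lU U * (C * ((U:ℝ) ^ 3 / d) * XU η U)) := by gcongr
        _ = _ := by field_simp
    · rw [GU_apply, if_neg hdU]; simp
  refine (norm_sum_le _ _).trans ((sum_le_sum h1).trans ?_)
  rw [← sum_filter]
  have h2 : (Ioc 0 (3 * U ^ 3)).filter (fun d => d ≤ U) = Ioc 0 U := by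
    ext d; simp only [mem_filter, mem_Ioc]; omega
  rw [h2, ← mul_sum]
  have h3 := sum_inv_le U
  have h4 := log_le_lU U U (by omega) (by omega)
  calc 2 * C * (U:ℝ) ^ 3 * XU η U * lU U * ∑ i ∈ Ioc 0 U, (i:ℝ)⁻¹
      ≤ 2 * C * (U:ℝ) ^ 3 * XU η U * lU U * lU U := by
        gcongr; linarith
    _ = _ := by ring

lemma FG_abs_le (U n : ℕ) : |(FU U * GU U) n| ≤ Real.log n := by
  rw [ArithmeticFunction.mul_apply]
  calc |∑ x ∈ n.divisorsAntidiagonal, FU U x.1 * GU U x.2|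
      ≤ ∑ x ∈ n.divisorsAntidiagonal, |FU U x.1 * GU U x.2| := abs_sum_le_sum_abs _ _
    _ ≤ ∑ x ∈ n.divisorsAntidiagonal, Λ x.1 := by
        refine sum_le_sum fun x _ => ?_
        rw [abs_mul]
        have h1 := GU_abs_le U x.2
        have h2 : |FU U x.1| ≤ Λ x.1 := by
          rw [FU_apply]; split_ifs
          · rw [abs_of_nonneg vonMangoldt_nonneg]
          · simp [vonMangoldt_nonneg]
        calc |FU U x.1| * |GU U x.2| ≤ Λ x.1 * 1 := by gcongr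
          _ = _ := mul_one _
    _ = Real.log n := by
        rw [Nat.sum_divisorsAntidiagonal (f := fun i _ => Λ i)]
        exact vonMangoldt_sum

lemma FG_eq_zero (U n : ℕ) (hn : U ^ 2 < n) : (FU U * GU U) n = 0 := by
  rw [ArithmeticFunction.mul_apply]
  apply sum_eq_zero
  intro x hx
  rw [Nat.mem_divisorsAntidiagonal] at hx
  rw [FU_apply, GU_apply]
  by_cases h1 : x.1 ≤ U
  · by_cases h2 : x.2 ≤ U
    · exfalso
      have : x.1 * x.2 ≤ U * U := Nat.mul_le_mul h1 h2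
      nlinarith [hx.1]
    · rw [if_neg h2]; simp
  · rw [if_neg h1]; simp

lemma typeI_one {A : ℕ} {C η : ℝ} (hC : 0 < C) (hη : 0 < η) (hov : OV A C η) (U : ℕ) (hU : 13 ≤ U)
    (c : ℝ) (hc1 : (U:ℝ) ^ 9 ≤ |c|) (hc2 : |c| ≤ (U:ℝ) ^ A) :
    ‖∑ n ∈ Ioc (U ^ 3) (3 * U ^ 3), (((FU U * GU U * (ζ : ArithmeticFunction ℝ)) n : ℝ) : ℂ) * e (c / n)‖
      ≤ C * (U:ℝ) ^ 3 * XU η U * lU U ^ 2 := by
  rw [sum_conv]
  have hX := XU_pos η U (by omega)
  have hl := one_le_lU U (by omega)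
  have hU3 : U ^ 2 ≤ U ^ 3 := Nat.pow_le_pow_right (by omega) (by norm_num)
  have h1 : ∀ d ∈ Ioc 0 (3 * U ^ 3), ‖(((FU U * GU U) d : ℝ) : ℂ) * ∑ k ∈ Ioc (U ^ 3 / d) (3 * U ^ 3 / d),
      (((ζ : ArithmeticFunction ℝ) k : ℝ) : ℂ) * e (c / ((d * k : ℕ) : ℝ))‖ ≤
      if d ≤ U ^ 2 then C * (U:ℝ) ^ 3 * XU η U * lU U * (d:ℝ)⁻¹ else 0 := by
    intro d hd
    rw [mem_Ioc] at hd
    split_ifs with hdU
    · rw [norm_mul, Complex.norm_real, Real.norm_eq_abs]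
      have hg := FG_abs_le U d
      have hlog : Real.log d ≤ lU U := by
        have := log_le_lU U d hd.1 (by omega)
        linarith
      have hinner := typeI_inner hC hη hov U hU c hc1 hc2 d hd.1 hdU _ le_rfl
      have e1 : ∀ k ∈ Ioc (U ^ 3 / d) (3 * U ^ 3 / d),
          (((ζ : ArithmeticFunction ℝ) k : ℝ) : ℂ) * e (c / ((d * k : ℕ) : ℝ)) = e (c / ((d * k : ℕ) : ℝ)) := by
        intro k hk
        rw [mem_Ioc] at hk
        have : k ≠ 0 := ((Nat.zero_le _).trans_lt hk.1).ne'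
        simp [natCoe_apply, zeta_apply, this]
      rw [sum_congr rfl e1]
      calc _ ≤ lU U * (C * ((U:ℝ) ^ 3 / d) * XU η U) := by
            gcongr
            exact hg.trans hlog
        _ = _ := by field_simp
    · rw [FG_eq_zero U d (by omega)]; simp
  refine (norm_sum_le _ _).trans ((sum_le_sum h1).trans ?_)
  rw [← sum_filter]
  have h2 : (Ioc 0 (3 * U ^ 3)).filter (fun d => d ≤ U ^ 2) = Ioc 0 (U ^ 2) := by
    ext d; simp only [mem_filter, mem_Ioc]; omega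
  rw [h2, ← mul_sum]
  have h3 := sum_inv_le (U ^ 2)
  have h4 := log_le_lU U (U ^ 2) (Nat.one_le_pow _ _ (by omega)) (by omega)
  calc C * (U:ℝ) ^ 3 * XU η U * lU U * ∑ i ∈ Ioc 0 (U ^ 2), (i:ℝ)⁻¹
      ≤ C * (U:ℝ) ^ 3 * XU η U * lU U * lU U := by
        gcongr; linarith
    _ = _ := by ring

end Pool.Agent.StSP
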