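import Mathlib
import Pool.Agent.StSP.TypeI

/-! Type II sums. -/

namespace Pool.Agent.StSP

open Finset ArithmeticFunction
open scoped ArithmeticFunction.Moebius ArithmeticFunction.zeta

lemma BU_small (U k : ℕ) (hkU : k ≤ U) : BU U k = 0 := by
  unfold BU
  have h1 : (GU U * (ζ : ArithmeticFunction ℝ)) k = (((μ : ArithmeticFunction ℤ) : ArithmeticFunction ℝ) * (ζ : ArithmeticFunction ℝ)) k := by
    rw [ArithmeticFunction.mul_apply, ArithmeticFunction.mul_apply]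
    refine sum_congr rfl fun x hx => ?_
    have hx1 := Nat.fst_mem_divisors_of_mem_antidiagonal hx
    have hx2 := Nat.divisor_le hx1
    rw [GU_apply, if_pos (by omega)]
    simp
  have h2 : (1 - GU U * (ζ : ArithmeticFunction ℝ)) k
      = (1 : ArithmeticFunction ℝ) k - (GU U * (ζ : ArithmeticFunction ℝ)) k := by
    rw [sub_eq_add_neg]; rfl
  rw [h2, h1, coe_moebius_mul_coe_zeta, sub_self]

lemma BU_abs_le (U k : ℕ) (hU : 1 ≤ U) (hkU : U < k) : |BU U k| ≤ #k.divisors := by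
  unfold BU
  have h2 : (1 - GU U * (ζ : ArithmeticFunction ℝ)) k
      = (1 : ArithmeticFunction ℝ) k - (GU U * (ζ : ArithmeticFunction ℝ)) k := by
    rw [sub_eq_add_neg]; rfl
  have h3 : (1 : ArithmeticFunction ℝ) k = 0 := by
    rw [one_apply_ne (by omega)]
  rw [h2, h3, zero_sub, abs_neg, ArithmeticFunction.mul_apply]
  calc |∑ x ∈ k.divisorsAntidiagonal, GU U x.1 * (ζ : ArithmeticFunction ℝ) x.2|
      ≤ ∑ x ∈ k.divisorsAntidiagonal, |GU U x.1 * (ζ : ArithmeticFunction ℝ) x.2| := abs_sum_le_sum_abs _ _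
    _ ≤ ∑ x ∈ k.divisorsAntidiagonal, (1:ℝ) := by
        refine sum_le_sum fun x _ => ?_
        rw [abs_mul]
        have h1 := GU_abs_le U x.1
        have h4 : |(ζ : ArithmeticFunction ℝ) x.2| ≤ 1 := by
          simp only [natCoe_apply, zeta_apply]
          split_ifs <;> simp
        calc _ ≤ (1:ℝ) * 1 := by gcongr
          _ = 1 := one_mul _
    _ = #k.divisors := by
        rw [sum_const, nsmul_eq_mul, mul_one, ← Nat.map_div_right_divisors, card_map]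

/-- the filtered inner sum -/
noncomputable def Ysum (U : ℕ) (c : ℝ) (m : ℕ) : ℂ :=
  ∑ k ∈ Ioc U (3 * U ^ 3), if U ^ 3 < m * k ∧ m * k ≤ 3 * U ^ 3 then
    ((BU U k : ℝ) : ℂ) * e (c / ((m * k : ℕ) : ℝ)) else 0

lemma typeII_rewrite (U : ℕ) (hU : 1 ≤ U) (c : ℝ) :
    ∑ n ∈ Ioc (U ^ 3) (3 * U ^ 3), ((((Λ - FU U) * BU U) n : ℝ) : ℂ) * e (c / n)
      = ∑ m ∈ Ioc U (3 * U ^ 3), ((Λ m : ℝ) : ℂ) * Ysum U c m := by
  rw [sum_conv]
  have hU3 : U ≤ U ^ 3 := Nat.le_self_pow (by norm_num) U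
  have hsub : ∀ n, (Λ - FU U) n = if n ≤ U then 0 else Λ n := by
    intro n
    have : (Λ - FU U) n = Λ n - FU U n := by rw [sub_eq_add_neg]; rfl
    rw [this, FU_apply]
    split_ifs <;> simp
  have h1 : ∑ m ∈ Ioc U (3 * U ^ 3), ((Λ m : ℝ) : ℂ) * Ysum U c m
      = ∑ m ∈ Ioc 0 (3 * U ^ 3), (((Λ - FU U) m : ℝ) : ℂ) * Ysum U c m := by
    have h2 : ∑ m ∈ Ioc U (3 * U ^ 3), ((Λ m : ℝ) : ℂ) * Ysum U c m
      = ∑ m ∈ Ioc U (3 * U ^ 3), (((Λ - FU U) m : ℝ) : ℂ) * Ysum U c m := by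
      refine sum_congr rfl fun m hm => ?_
      rw [mem_Ioc] at hm
      rw [hsub, if_neg (by omega)]
    rw [h2]
    apply sum_subset
    · intro x hx; simp only [mem_Ioc] at hx ⊢; omega
    · intro x hx hx'
      simp only [mem_Ioc] at hx hx'
      rw [hsub, if_pos (by omega)]; simp
  rw [h1]
  refine sum_congr rfl fun m hm => ?_
  rw [mem_Ioc] at hm
  by_cases hmU : m ≤ U
  · rw [hsub, if_pos hmU]; simp
  congr 1
  unfold Ysum
  rw [← sum_filter]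
  symm
  apply sum_subset
  · intro k hk
    simp only [mem_filter, mem_Ioc] at hk ⊢
    rw [Nat.div_lt_iff_lt_mul (by omega), Nat.le_div_iff_mul_le (by omega), mul_comm k m]
    exact hk.2
  · intro k hk hk'
    rw [mem_Ioc] at hk
    have hk1 := hk.1
    have hk2 := hk.2
    rw [Nat.div_lt_iff_lt_mul (by omega), mul_comm k m] at hk1
    rw [Nat.le_div_iff_mul_le (by omega), mul_comm k m] at hk2
    have hk0 : 0 < k := (Nat.zero_le _).trans_lt hk.1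
    have hkU : k ≤ U := by
      by_contra hc
      apply hk'
      simp only [mem_filter, mem_Ioc]
      refine ⟨⟨by omega, ?_⟩, hk1, hk2⟩
      calc k ≤ m * k := Nat.le_mul_of_pos_left _ (by omega)
        _ ≤ _ := hk2
    rw [BU_small U k hkU]; simp

/-- the correlation sum -/
noncomputable def Zsum (U : ℕ) (c : ℝ) (k k' : ℕ) : ℂ :=
  ∑ m ∈ Ioc (max U (max (U ^ 3 / k) (U ^ 3 / k'))) (min (3 * U ^ 3) (min (3 * U ^ 3 / k) (3 * U ^ 3 / k'))),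
    ((m : ℝ) : ℂ) * e ((c / k - c / k') / m)

lemma Zsum_eq (U : ℕ) (c : ℝ) (k k' : ℕ) (hk : 0 < k) (hk' : 0 < k') :
    ∑ m ∈ Ioc U (3 * U ^ 3), ((m : ℝ) : ℂ) * ((if U ^ 3 < m * k ∧ m * k ≤ 3 * U ^ 3 then
      e (c / ((m * k : ℕ) : ℝ)) else 0) * (starRingEnd ℂ) (if U ^ 3 < m * k' ∧ m * k' ≤ 3 * U ^ 3 then
      e (c / ((m * k' : ℕ) : ℝ)) else 0)) = Zsum U c k k' := by
  unfold Zsum
  symm
  have hset : Ioc (max U (max (U ^ 3 / k) (U ^ 3 / k'))) (min (3 * U ^ 3) (min (3 * U ^ 3 / k) (3 * U ^ 3 / k')))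
      = (Ioc U (3 * U ^ 3)).filter (fun m => (U ^ 3 < m * k ∧ m * k ≤ 3 * U ^ 3) ∧
        (U ^ 3 < m * k' ∧ m * k' ≤ 3 * U ^ 3)) := by
    ext m
    simp only [mem_filter, mem_Ioc, max_lt_iff, le_min_iff, Nat.div_lt_iff_lt_mul hk,
      Nat.div_lt_iff_lt_mul hk', Nat.le_div_iff_mul_le hk, Nat.le_div_iff_mul_le hk']
    tauto
  rw [hset, sum_filter]
  refine sum_congr rfl fun m hm => ?_
  rw [mem_Ioc] at hm
  by_cases h1 : U ^ 3 < m * k ∧ m * k ≤ 3 * U ^ 3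
  · by_cases h2 : U ^ 3 < m * k' ∧ m * k' ≤ 3 * U ^ 3
    · rw [if_pos ⟨h1, h2⟩, if_pos h1, if_pos h2, e_mul_conj]
      congr 2
      have hm0 : (0:ℝ) < m := by exact_mod_cast (by omega : 0 < m)
      push_cast
      rw [sub_div, div_div, div_div, mul_comm (k:ℝ), mul_comm (k':ℝ)]
    · rw [if_neg (fun h => h2 h.2), if_neg h2]; simp
  · rw [if_neg (fun h => h1 h.1), if_neg h1]; simp

lemma Z_diag (U : ℕ) (c : ℝ) (k : ℕ) (hk : 0 < k) :
    ‖Zsum U c k k‖ ≤ 9 * ((U:ℝ) ^ 3) ^ 2 / (k:ℝ) ^ 2 := by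
  unfold Zsum
  set b := min (3 * U ^ 3) (min (3 * U ^ 3 / k) (3 * U ^ 3 / k)) with hb
  set a := max U (max (U ^ 3 / k) (U ^ 3 / k)) with ha
  have hbk : b ≤ 3 * U ^ 3 / k := by rw [hb]; simp
  have hk0 : (0:ℝ) < k := by exact_mod_cast hk
  have hbr : (b:ℝ) ≤ 3 * (U:ℝ) ^ 3 / k := by
    calc (b:ℝ) ≤ ((3 * U ^ 3 / k : ℕ) : ℝ) := by exact_mod_cast hbk
      _ ≤ ((3 * U ^ 3 : ℕ) : ℝ) / k := Nat.cast_div_le
      _ = _ := by push_cast; ring
  calc _ ≤ ∑ m ∈ Ioc a b, ‖((m : ℝ) : ℂ) * e ((c / k - c / k) / m)‖ := norm_sum_le _ _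
    _ ≤ ∑ m ∈ Ioc a b, (b:ℝ) := by
        refine sum_le_sum fun m hm => ?_
        rw [mem_Ioc] at hm
        rw [norm_mul, norm_e, mul_one, Complex.norm_real, Real.norm_eq_abs, abs_of_nonneg (by positivity)]
        exact_mod_cast hm.2
    _ ≤ b * b := by
        rw [sum_const, nsmul_eq_mul, Nat.card_Ioc]
        gcongr
        exact_mod_cast Nat.sub_le b a
    _ ≤ (3 * (U:ℝ) ^ 3 / k) * (3 * (U:ℝ) ^ 3 / k) := by gcongr
    _ = _ := by ring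

lemma Z_offdiag {A : ℕ} {C η : ℝ} (hC : 0 < C) (hη : 0 < η) (hov : OV A C η) (U : ℕ) (hU : 13 ≤ U)
    (c : ℝ) (hc1 : (U:ℝ) ^ 9 ≤ |c|) (hc2 : |c| ≤ (U:ℝ) ^ A) (k k' : ℕ) (hk : 0 < k) (hk' : 0 < k')
    (hne : k ≠ k') :
    ‖Zsum U c k k'‖ ≤ 36 * C * XU η U * ((U:ℝ) ^ 3) ^ 2 / (k * k') := by
  unfold Zsum
  set b := min (3 * U ^ 3) (min (3 * U ^ 3 / k) (3 * U ^ 3 / k')) with hb
  set a := max U (max (U ^ 3 / k) (U ^ 3 / k')) with ha
  have hX := XU_pos η U (by omega)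
  have hk0 : (0:ℝ) < k := by exact_mod_cast hk
  have hk0' : (0:ℝ) < k' := by exact_mod_cast hk'
  rcases Nat.lt_or_ge a b with hab | hab
  swap
  · rw [Ioc_eq_empty (by omega)]
    simp only [sum_empty, norm_zero]
    positivity
  set L := max (U ^ 3 / k) (U ^ 3 / k') with hL
  have hLa : L ≤ a := le_max_right _ _
  have hUa : U ≤ a := le_max_left _ _
  have hbk : b ≤ 3 * U ^ 3 / k := by rw [hb]; simp
  have hbk' : b ≤ 3 * U ^ 3 / k' := by rw [hb]; simp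
  have hbkm : b * k ≤ 3 * U ^ 3 := (Nat.le_div_iff_mul_le hk).1 hbk
  have hbkm' : b * k' ≤ 3 * U ^ 3 := (Nat.le_div_iff_mul_le hk').1 hbk'
  have hksm : k ≤ 3 * U ^ 2 := by
    by_contra hc
    push Not at hc
    have : U * (3 * U ^ 2) < b * k := by
      calc U * (3 * U ^ 2) < U * k := Nat.mul_lt_mul_of_pos_left hc (by omega)
        _ ≤ b * k := Nat.mul_le_mul_right _ (by omega)
    nlinarith
  have hLlow : U / 3 ≤ L := by
    calc U / 3 = U ^ 3 / (3 * U ^ 2) := by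
          rw [show U ^ 3 = U * U ^ 2 by ring]
          rw [Nat.mul_div_mul_right _ _ (by positivity)]
      _ ≤ U ^ 3 / k := Nat.div_le_div_left hksm hk
      _ ≤ L := le_max_left _ _
  have hL4 : 4 ≤ L := by omega
  have hUL : U ≤ L ^ 2 := by
    have : U ≤ 3 * L + 2 := by omega
    nlinarith
  have hL1 : 1 ≤ L := by omega
  -- L^2 k k' ≤ 3 U^6
  have hLk : L * k ≤ 3 * U ^ 3 := (Nat.mul_le_mul_right _ (by omega)).trans hbkm
  have hLk' : L * k' ≤ 3 * U ^ 3 := (Nat.mul_le_mul_right _ (by omega)).trans hbkm'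
  have hprod : (L * k) * (L * k') ≤ 3 * (U ^ 3) ^ 2 := by
    rcases le_total (U ^ 3 / k) (U ^ 3 / k') with h | h
    · have h1 : L = U ^ 3 / k' := max_eq_right h
      have h2 : L * k' ≤ U ^ 3 := by rw [h1]; exact Nat.div_mul_le_self _ _
      calc (L * k) * (L * k') ≤ (3 * U ^ 3) * U ^ 3 := Nat.mul_le_mul hLk h2
        _ = _ := by ring
    · have h1 : L = U ^ 3 / k := max_eq_left h
      have h2 : L * k ≤ U ^ 3 := by rw [h1]; exact Nat.div_mul_le_self _ _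
      calc (L * k) * (L * k') ≤ U ^ 3 * (3 * U ^ 3) := Nat.mul_le_mul h2 hLk'
        _ = _ := by ring
  have hprodr : (L:ℝ) ^ 2 * (k * k') ≤ 3 * ((U:ℝ) ^ 3) ^ 2 := by
    calc (L:ℝ) ^ 2 * (k * k') = (((L * k) * (L * k') : ℕ) : ℝ) := by push_cast; ring
      _ ≤ ((3 * (U ^ 3) ^ 2 : ℕ) : ℝ) := by exact_mod_cast hprod
      _ = _ := by push_cast; ring
  have hb6 : b ≤ 6 * L := by
    have hgen : ∀ j, 0 < j → 3 * U ^ 3 / j ≤ 3 * (U ^ 3 / j) + 2 := by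
      intro j hj
      have : 3 * U ^ 3 / j < 3 * (U ^ 3 / j) + 3 := by
        rw [Nat.div_lt_iff_lt_mul hj]
        have := Nat.lt_mul_div_succ (U ^ 3) hj
        nlinarith
      omega
    have h1 := hgen k hk
    have h2 : U ^ 3 / k ≤ L := le_max_left _ _
    omega
  have hU1 : (1:ℝ) ≤ U := by exact_mod_cast (by omega : 1 ≤ U)
  have hUbig : (3:ℝ) ≤ (U:ℝ) ^ 3 := by
    have : (13:ℝ) ≤ U := by exact_mod_cast hU
    calc (3:ℝ) ≤ 13 ^ 3 := by norm_num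
      _ ≤ (U:ℝ) ^ 3 := by gcongr
  have hcdiff : c / k - c / k' = c * ((k':ℝ) - k) / (k * k') := by
    field_simp
  have habs : |c / k - c / k'| = |c| * |(k':ℝ) - k| / (k * k') := by
    rw [hcdiff, abs_div, abs_mul, abs_of_pos (by positivity : (0:ℝ) < (k:ℝ) * k')]
  have hdiff1 : (1:ℝ) ≤ |(k':ℝ) - k| := by
    have h1 : (1:ℤ) ≤ |(k':ℤ) - k| := by
      apply Int.one_le_abs; omega
    exact_mod_cast h1
  have hk1 : (1:ℝ) ≤ k := by exact_mod_cast hk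
  have hk1' : (1:ℝ) ≤ k' := by exact_mod_cast hk'
  have hdiff2 : |(k':ℝ) - k| ≤ k * k' := by
    rw [abs_le]; constructor <;> nlinarith
  have hlow : (L:ℝ) ^ 2 ≤ |c / k - c / k'| := by
    rw [habs, le_div_iff₀ (by positivity)]
    calc (L:ℝ) ^ 2 * (k * k') ≤ 3 * ((U:ℝ) ^ 3) ^ 2 := hprodr
      _ ≤ (U:ℝ) ^ 3 * ((U:ℝ) ^ 3) ^ 2 := by gcongr
      _ = (U:ℝ) ^ 9 := by ring
      _ ≤ |c| := hc1
      _ = |c| * 1 := (mul_one _).symm
      _ ≤ |c| * |(k':ℝ) - k| := by gcongr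
  have hup : |c / k - c / k'| ≤ (L:ℝ) ^ (2 * A) := by
    rw [habs]
    calc |c| * |(k':ℝ) - k| / (k * k') ≤ |c| * (k * k') / (k * k') := by gcongr
      _ = |c| := by field_simp
      _ ≤ (U:ℝ) ^ A := hc2
      _ ≤ ((L:ℝ) ^ 2) ^ A := by gcongr; exact_mod_cast hUL
      _ = _ := by rw [← pow_mul]
  have hXL := rpow_le_XU hη U L hL1 hUL (by omega)
  have key := abel_mono (fun m => (m:ℝ)) (fun m => e ((c / k - c / k') / m)) a b
    (C * L * XU η U) (by positivity) (by positivity) (by intro n _ _; push_cast; linarith) hab.le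
    (fun t _ ht => (hov L _ hL1 hlow hup a t hLa (by omega)).trans (by gcongr))
  refine key.trans ?_
  rw [le_div_iff₀ (by positivity)]
  have hb6r : (b:ℝ) ≤ 6 * L := by exact_mod_cast hb6
  calc 2 * (b:ℝ) * (C * L * XU η U) * (k * k') ≤ 2 * (6 * L) * (C * L * XU η U) * (k * k') := by gcongr
    _ = 12 * C * XU η U * ((L:ℝ) ^ 2 * (k * k')) := by ring
    _ ≤ 12 * C * XU η U * (3 * ((U:ℝ) ^ 3) ^ 2) := by gcongr
    _ = _ := by ring

lemma Y_expand (U : ℕ) (c : ℝ) :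
    ((∑ m ∈ Ioc U (3 * U ^ 3), (m:ℝ) * ‖Ysum U c m‖ ^ 2 : ℝ) : ℂ)
      = ∑ k ∈ Ioc U (3 * U ^ 3), ∑ k' ∈ Ioc U (3 * U ^ 3),
        ((BU U k * BU U k' : ℝ) : ℂ) * Zsum U c k k' := by
  push_cast
  have h1 : ∀ m : ℕ, ((m:ℂ)) * (‖Ysum U c m‖ : ℂ) ^ 2 = ∑ k ∈ Ioc U (3 * U ^ 3), ∑ k' ∈ Ioc U (3 * U ^ 3),
      ((BU U k : ℝ) : ℂ) * ((BU U k' : ℝ) : ℂ) * (((m : ℝ) : ℂ) *
      ((if U ^ 3 < m * k ∧ m * k ≤ 3 * U ^ 3 then
      e (c / ((m * k : ℕ) : ℝ)) else 0) * (starRingEnd ℂ) (if U ^ 3 < m * k' ∧ m * k' ≤ 3 * U ^ 3 then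
      e (c / ((m * k' : ℕ) : ℝ)) else 0))) := by
    intro m
    rw [← Complex.mul_conj']
    unfold Ysum
    rw [map_sum, sum_mul_sum, mul_sum]
    refine sum_congr rfl fun k _ => ?_
    rw [mul_sum]
    refine sum_congr rfl fun k' _ => ?_
    split_ifs <;> simp <;> ring
  simp_rw [h1]
  rw [sum_comm]
  refine sum_congr rfl fun k hk => ?_
  rw [sum_comm]
  refine sum_congr rfl fun k' hk' => ?_
  rw [mem_Ioc] at hk hk'
  rw [← mul_sum, Zsum_eq U c k k' (by omega) (by omega)]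

lemma Y_bound {A : ℕ} {C η : ℝ} (hC : 0 < C) (hη : 0 < η) (hov : OV A C η) (U : ℕ) (hU : 13 ≤ U)
    (c : ℝ) (hc1 : (U:ℝ) ^ 9 ≤ |c|) (hc2 : |c| ≤ (U:ℝ) ^ A) :
    ∑ m ∈ Ioc U (3 * U ^ 3), (m:ℝ) * ‖Ysum U c m‖ ^ 2
      ≤ (36 * C * XU η U + 9 / U) * ((U:ℝ) ^ 3) ^ 2 * lU U ^ 4 := by
  have hX := XU_pos η U (by omega)
  have hU0 : (0:ℝ) < U := by exact_mod_cast (by omega : 0 < U)
  have hl := one_le_lU U (by omega)
  set T := Ioc U (3 * U ^ 3) with hT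
  set τ : ℕ → ℝ := fun k => (#k.divisors : ℝ) with hτ
  have hτ0 : ∀ k, 0 ≤ τ k := fun k => Nat.cast_nonneg _
  -- sums of τ
  have hs0 : ∑ a ∈ Ioc (0:ℕ) (3 * U ^ 3), (a:ℝ)⁻¹ ≤ lU U := by
    have := sum_inv_le (3 * U ^ 3)
    refine this.trans ?_
    unfold lU; push_cast; rfl
  have hs0n : 0 ≤ ∑ a ∈ Ioc (0:ℕ) (3 * U ^ 3), (a:ℝ)⁻¹ := sum_nonneg fun i _ => by positivity
  have hs1 : ∑ k ∈ Ioc 0 (3 * U ^ 3), τ k / k ≤ lU U ^ 2 :=
    (sum_tau_div_le _).trans (by gcongr)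
  have hs1n : 0 ≤ ∑ k ∈ Ioc 0 (3 * U ^ 3), τ k / k := sum_nonneg fun i _ => by
    have := hτ0 i; positivity
  have hs2 : ∑ k ∈ Ioc 0 (3 * U ^ 3), τ k ^ 2 / k ≤ lU U ^ 4 :=
    (sum_tau_sq_div_le _).trans (by
      calc (∑ k ∈ Ioc (0:ℕ) (3 * U ^ 3), (#k.divisors : ℝ) / k) ^ 2 ≤ (lU U ^ 2) ^ 2 :=
            pow_le_pow_left₀ hs1n hs1 2
        _ = lU U ^ 4 := by ring)
  have hsub : T ⊆ Ioc 0 (3 * U ^ 3) := by
    intro x hx; rw [hT] at hx; simp only [mem_Ioc] at hx ⊢; omega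
  have ht1 : ∑ k ∈ T, τ k / k ≤ lU U ^ 2 :=
    (sum_le_sum_of_subset_of_nonneg hsub fun i _ _ => by have := hτ0 i; positivity).trans hs1
  have ht1n : 0 ≤ ∑ k ∈ T, τ k / k := sum_nonneg fun i _ => by
    have := hτ0 i; positivity
  have ht2 : ∑ k ∈ T, τ k ^ 2 / k ≤ lU U ^ 4 :=
    (sum_le_sum_of_subset_of_nonneg hsub fun i _ _ => by have := hτ0 i; positivity).trans hs2
  have hτb : ∀ k, U < k → |BU U k| ≤ τ k := fun k hk => BU_abs_le U k (by omega) hk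
  clear_value τ
  have hnn : 0 ≤ ∑ m ∈ T, (m:ℝ) * ‖Ysum U c m‖ ^ 2 := sum_nonneg fun i _ => by positivity
  have e0 : ∑ m ∈ T, (m:ℝ) * ‖Ysum U c m‖ ^ 2
      = ‖((∑ m ∈ T, (m:ℝ) * ‖Ysum U c m‖ ^ 2 : ℝ) : ℂ)‖ := by
    rw [Complex.norm_real, Real.norm_of_nonneg hnn]
  rw [e0, hT, Y_expand, ← hT]
  have hTm : ∀ k ∈ T, U < k := fun k hk => (mem_Ioc.1 hk).1
  clear_value T
  have hzd := fun k hk => Z_diag U c k hk
  have hzo := fun k k' hk hk' hne => Z_offdiag hC hη hov U hU c hc1 hc2 k k' hk hk' hne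
  generalize Zsum U c = Z at *
  obtain ⟨X, hXdef⟩ : ∃ X, X = XU η U := ⟨_, rfl⟩
  rw [← hXdef] at hX hzo ⊢
  obtain ⟨P2, hP2⟩ : ∃ P2, P2 = ((U:ℝ) ^ 3) ^ 2 := ⟨_, rfl⟩
  rw [← hP2] at hzo hzd ⊢
  have hP2n : 0 ≤ P2 := by rw [hP2]; positivity
  obtain ⟨l, hldef⟩ : ∃ l, l = lU U := ⟨_, rfl⟩
  rw [← hldef] at hl ht1 ht2 ⊢
  calc ‖∑ k ∈ T, ∑ k' ∈ T, ((BU U k * BU U k' : ℝ) : ℂ) * Z k k'‖
      ≤ ∑ k ∈ T, ∑ k' ∈ T, ‖((BU U k * BU U k' : ℝ) : ℂ) * Z k k'‖ :=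
        (norm_sum_le _ _).trans (sum_le_sum fun k _ => norm_sum_le _ _)
    _ ≤ ∑ k ∈ T, ∑ k' ∈ T, (36 * C * X * P2 * ((τ k / k) * (τ k' / k'))
          + if k = k' then 9 * P2 / U * (τ k ^ 2 / k) else 0) := by
        refine sum_le_sum fun k hk => sum_le_sum fun k' hk' => ?_
        have hkU := hTm k hk
        have hkU' := hTm k' hk'
        have hk0 : (0:ℝ) < k := by exact_mod_cast (by omega : 0 < k)
        have hk0' : (0:ℝ) < k' := by exact_mod_cast (by omega : 0 < k')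
        rw [norm_mul, Complex.norm_real, Real.norm_eq_abs, abs_mul]
        have hb1 : |BU U k| ≤ τ k := hτb k hkU
        have hb2 : |BU U k'| ≤ τ k' := hτb k' hkU'
        have hb3 := hτ0 k
        have hb4 := hτ0 k'
        by_cases hkk : k = k'
        · subst hkk
          rw [if_pos rfl]
          have hz := hzd k (by omega)
          have hUk : (U:ℝ) ≤ k := by exact_mod_cast hkU.le
          have h5 : |BU U k| * |BU U k| * ‖Z k k‖ ≤ 9 * P2 / U * (τ k ^ 2 / k) := by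
            calc |BU U k| * |BU U k| * ‖Z k k‖ ≤ τ k * τ k * (9 * P2 / (k:ℝ) ^ 2) := by
                  gcongr
              _ = 9 * P2 * (τ k ^ 2 / k) / k := by field_simp
              _ ≤ 9 * P2 * (τ k ^ 2 / k) / U := by gcongr
              _ = _ := by ring
          have h6 : 0 ≤ 36 * C * X * P2 * ((τ k / k) * (τ k / k)) := by positivity
          linarith
        · rw [if_neg hkk, add_zero]
          have hz := hzo k k' (by omega) (by omega) hkk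
          calc |BU U k| * |BU U k'| * ‖Z k k'‖
              ≤ τ k * τ k' * (36 * C * X * P2 / (k * k')) := by gcongr
            _ = _ := by field_simp
    _ = 36 * C * X * P2 * (∑ k ∈ T, τ k / k) ^ 2
          + 9 * P2 / U * ∑ k ∈ T, τ k ^ 2 / k := by
        simp_rw [sum_add_distrib]
        congr 1
        · rw [sq (∑ k ∈ T, τ k / k), sum_mul_sum, mul_sum]
          refine sum_congr rfl fun k _ => ?_
          rw [mul_sum]
        · rw [mul_sum]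
          refine sum_congr rfl fun k hk => ?_
          rw [sum_ite_eq, if_pos hk]
    _ ≤ 36 * C * X * P2 * (l ^ 2) ^ 2
          + 9 * P2 / U * l ^ 4 := by gcongr
    _ = _ := by ring

lemma typeII {A : ℕ} {C η : ℝ} (hC : 0 < C) (hη : 0 < η) (hov : OV A C η) (U : ℕ) (hU : 13 ≤ U)
    (c : ℝ) (hc1 : (U:ℝ) ^ 9 ≤ |c|) (hc2 : |c| ≤ (U:ℝ) ^ A) :
    ‖∑ n ∈ Ioc (U ^ 3) (3 * U ^ 3), ((((Λ - FU U) * BU U) n : ℝ) : ℂ) * e (c / n)‖ ^ 2
      ≤ (36 * C * XU η U + 9 / U) * ((U:ℝ) ^ 3) ^ 2 * lU U ^ 7 := by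
  rw [typeII_rewrite U (by omega) c]
  have hX := XU_pos η U (by omega)
  have hU0 : (0:ℝ) < U := by exact_mod_cast (by omega : 0 < U)
  have hl := one_le_lU U (by omega)
  set T := Ioc U (3 * U ^ 3) with hT
  have h1 : ‖∑ m ∈ T, ((Λ m : ℝ) : ℂ) * Ysum U c m‖
      ≤ ∑ m ∈ T, (Λ m / √m) * (√m * ‖Ysum U c m‖) := by
    refine (norm_sum_le _ _).trans (sum_le_sum fun m hm => ?_)
    rw [hT, mem_Ioc] at hm
    have hm0 : (0:ℝ) < m := by exact_mod_cast (by omega : 0 < m)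
    rw [norm_mul, Complex.norm_real, Real.norm_of_nonneg vonMangoldt_nonneg]
    have : 0 < √(m:ℝ) := Real.sqrt_pos.2 hm0
    apply le_of_eq
    field_simp
  have h2 : (∑ m ∈ T, (Λ m / √m) * (√m * ‖Ysum U c m‖)) ^ 2
      ≤ (∑ m ∈ T, (Λ m / √m) ^ 2) * ∑ m ∈ T, (√m * ‖Ysum U c m‖) ^ 2 :=
    sum_mul_sq_le_sq_mul_sq _ _ _
  have h3 : ∑ m ∈ T, (Λ m / √m) ^ 2 ≤ lU U ^ 3 := by
    calc ∑ m ∈ T, (Λ m / √m) ^ 2 ≤ ∑ m ∈ T, lU U ^ 2 * (m:ℝ)⁻¹ := by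
          refine sum_le_sum fun m hm => ?_
          rw [hT, mem_Ioc] at hm
          have hm0 : (0:ℝ) < m := by exact_mod_cast (by omega : 0 < m)
          rw [div_pow, Real.sq_sqrt hm0.le, div_eq_mul_inv]
          have h4 := log_le_lU U m (by omega) hm.2
          have h5 : Λ m ≤ Real.log m := vonMangoldt_le_log
          have h6 : Λ m ≤ lU U := by linarith
          have h7 : 0 ≤ Λ m := vonMangoldt_nonneg
          gcongr
      _ = lU U ^ 2 * ∑ m ∈ T, (m:ℝ)⁻¹ := by rw [mul_sum]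
      _ ≤ lU U ^ 2 * lU U := by
          gcongr
          have hsub : T ⊆ Ioc 0 (3 * U ^ 3) := by
            intro x hx; rw [hT] at hx; simp only [mem_Ioc] at hx ⊢; omega
          refine (sum_le_sum_of_subset_of_nonneg hsub fun i _ _ => by positivity).trans ?_
          refine (sum_inv_le (3 * U ^ 3)).trans ?_
          unfold lU; push_cast; rfl
      _ = _ := by ring
  have h4 : ∑ m ∈ T, (√m * ‖Ysum U c m‖) ^ 2 ≤ (36 * C * XU η U + 9 / U) * ((U:ℝ) ^ 3) ^ 2 * lU U ^ 4 := by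
    refine le_trans (le_of_eq ?_) (Y_bound hC hη hov U hU c hc1 hc2)
    refine sum_congr rfl fun m hm => ?_
    rw [mul_pow, Real.sq_sqrt (by positivity)]
  calc _ ≤ (∑ m ∈ T, (Λ m / √m) * (√m * ‖Ysum U c m‖)) ^ 2 := by gcongr
    _ ≤ _ := h2
    _ ≤ lU U ^ 3 * ((36 * C * XU η U + 9 / U) * ((U:ℝ) ^ 3) ^ 2 * lU U ^ 4) := by
        gcongr
    _ = _ := by ring

end Pool.Agent.StSP
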