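import Mathlib
import Pool.Agent.StSP.TypeII

/-! Exponential sums over primes. -/

namespace Pool.Agent.StSP

open Finset ArithmeticFunction Filter
open scoped ArithmeticFunction.Moebius ArithmeticFunction.zeta

lemma one_add_log_le_rpow {x s : ℝ} (hx : 1 ≤ x) (hs : 0 < s) :
    1 + Real.log x ≤ (1 + 1 / s) * x ^ s := by
  have h1 : Real.log x ≤ x ^ s / s := Real.log_le_rpow_div (by linarith) hs
  have h2 : 1 ≤ x ^ s := Real.one_le_rpow hx hs.le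
  calc 1 + Real.log x ≤ x ^ s + x ^ s / s := add_le_add h2 h1
    _ = _ := by ring

lemma saving_small (η : ℝ) (hη : 0 < η) (δ : ℝ) (hδ : 0 < δ) :
    ∃ U0 : ℕ, 13 ≤ U0 ∧ ∀ U ≥ U0, XU η U * lU U ^ 7 ≤ δ := by
  set s : ℝ := η / 84 with hs
  have hs0 : 0 < s := by positivity
  set K : ℝ := (1 + 1 / s) ^ 7 * 3 ^ (7 * s) with hK
  have hK0 : 0 < K := by positivity
  have htend : Tendsto (fun U : ℕ => ((U:ℝ)) ^ (-(η / 4))) atTop (nhds 0) :=
    (tendsto_rpow_neg_atTop (by positivity)).comp tendsto_natCast_atTop_atTop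
  have hev := (htend.eventually (gt_mem_nhds (show 0 < δ / K by positivity))).and (eventually_ge_atTop 13)
  obtain ⟨U0, hU0⟩ := eventually_atTop.1 hev
  refine ⟨max U0 13, le_max_right _ _, fun U hU => ?_⟩
  obtain ⟨h1, h2⟩ := hU0 U (le_trans (le_max_left _ _) hU)
  have hU1 : (1:ℝ) ≤ U := by exact_mod_cast (by omega : 1 ≤ U)
  have hUpos : (0:ℝ) < U := by linarith
  have h3 : lU U ≤ (1 + 1 / s) * (3 * (U:ℝ) ^ 3) ^ s := by
    unfold lU
    apply one_add_log_le_rpow _ hs0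
    have : 1 ≤ (U:ℝ) ^ 3 := one_le_pow₀ hU1
    linarith
  have hl0 : 0 ≤ lU U := by have := one_le_lU U (by omega); linarith
  have h4 : lU U ^ 7 ≤ K * (U:ℝ) ^ (η / 4) := by
    calc lU U ^ 7 ≤ ((1 + 1 / s) * (3 * (U:ℝ) ^ 3) ^ s) ^ 7 := by gcongr
      _ = (1 + 1 / s) ^ 7 * ((3 * (U:ℝ) ^ 3) ^ s) ^ 7 := by rw [mul_pow]
      _ = K * (U:ℝ) ^ (η / 4) := by
        rw [hK, ← Real.rpow_natCast ((3 * (U:ℝ) ^ 3) ^ s) 7, ← Real.rpow_mul (by positivity),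
          Real.mul_rpow (by norm_num) (by positivity), ← Real.rpow_natCast (U:ℝ) 3,
          ← Real.rpow_mul hUpos.le]
        have e1 : s * ((7:ℕ):ℝ) = 7 * s := by push_cast; ring
        have e2 : ((3:ℕ):ℝ) * (s * ((7:ℕ):ℝ)) = η / 4 := by rw [hs]; push_cast; ring
        rw [e2, e1]; ring
  have hX := XU_pos η U (by omega)
  calc XU η U * lU U ^ 7 ≤ XU η U * (K * (U:ℝ) ^ (η / 4)) := by gcongr
    _ = K * (U:ℝ) ^ (-(η / 4)) := by
      unfold XU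
      rw [mul_left_comm, ← Real.rpow_add hUpos]
      congr 2; ring
    _ ≤ K * (δ / K) := by gcongr
    _ = δ := by field_simp

theorem expsum (A : ℕ) (hA : 1 ≤ A) (ε : ℝ) (hε : 0 < ε) : ∃ U0 : ℕ, ∀ U ≥ U0, ∀ c : ℝ,
    (U:ℝ) ^ 9 ≤ |c| → |c| ≤ (U:ℝ) ^ A →
    ‖∑ n ∈ Ioc (U ^ 3) (3 * U ^ 3), ((Λ n : ℝ) : ℂ) * e (c / n)‖ ≤ ε * (U:ℝ) ^ 3 := by
  obtain ⟨C, η, hC, hη, hη1, hov'⟩ := one_var (2 * A) (by omega)
  have hov : OV A C η := hov'
  -- choose δ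
  set δ : ℝ := min (ε / (6 * C)) (ε ^ 2 / (4 * (36 * C + 9))) with hδ
  have hδ0 : 0 < δ := by rw [hδ]; positivity
  obtain ⟨U0, hU13, hU0⟩ := saving_small η hη δ hδ0
  refine ⟨U0, fun U hU c hc1 hc2 => ?_⟩
  have hU' : 13 ≤ U := hU13.trans hU
  have hUr : (1:ℝ) ≤ U := by exact_mod_cast (by omega : 1 ≤ U)
  have hUpos : (0:ℝ) < U := by linarith
  have hsmall := hU0 U hU
  have hX := XU_pos η U (by omega)
  have hl := one_le_lU U (by omega)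
  have hU3 : U ≤ U ^ 3 := Nat.le_self_pow (by norm_num) U
  have hsplit : ∑ n ∈ Ioc (U ^ 3) (3 * U ^ 3), ((Λ n : ℝ) : ℂ) * e (c / n)
      = ∑ n ∈ Ioc (U ^ 3) (3 * U ^ 3), (((GU U * log) n : ℝ) : ℂ) * e (c / n)
        - ∑ n ∈ Ioc (U ^ 3) (3 * U ^ 3), (((FU U * GU U * (ζ : ArithmeticFunction ℝ)) n : ℝ) : ℂ) * e (c / n)
        + ∑ n ∈ Ioc (U ^ 3) (3 * U ^ 3), ((((Λ - FU U) * BU U) n : ℝ) : ℂ) * e (c / n) := by
    rw [← sum_sub_distrib, ← sum_add_distrib]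
    refine sum_congr rfl fun n hn => ?_
    rw [mem_Ioc] at hn
    have h1 : Λ n = FU U n + (GU U * log) n - (FU U * GU U * (ζ : ArithmeticFunction ℝ)) n
        + ((Λ - FU U) * BU U) n := by
      have := congrArg (fun f : ArithmeticFunction ℝ => f n) (vaughan U)
      simpa [sub_eq_add_neg] using this
    rw [FU_apply, if_neg (by omega)] at h1
    rw [h1]
    push_cast
    ring
  rw [hsplit]
  have b1 := typeI_log hC hη hov U hU' c hc1 hc2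
  have b2 := typeI_one hC hη hov U hU' c hc1 hc2
  have b3 := typeII hC hη hov U hU' c hc1 hc2
  set P : ℝ := (U:ℝ) ^ 3 with hP
  have hPpos : 0 < P := by positivity
  have hl2 : lU U ^ 2 ≤ lU U ^ 7 := pow_le_pow_right₀ hl (by norm_num)
  have hYX : XU η U * lU U ^ 2 ≤ δ := (by gcongr : XU η U * lU U ^ 2 ≤ XU η U * lU U ^ 7).trans hsmall
  have b12 : 2 * C * P * XU η U * lU U ^ 2 + C * P * XU η U * lU U ^ 2 ≤ ε / 2 * P := by
    calc 2 * C * P * XU η U * lU U ^ 2 + C * P * XU η U * lU U ^ 2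
        = 3 * C * P * (XU η U * lU U ^ 2) := by ring
      _ ≤ 3 * C * P * (ε / (6 * C)) := by
        gcongr
        exact hYX.trans (min_le_left _ _)
      _ = ε / 2 * P := by field_simp; norm_num
  have hUX : 9 / (U:ℝ) ≤ 9 * XU η U := by
    unfold XU
    have : (U:ℝ) ^ (-1:ℝ) ≤ (U:ℝ) ^ (-(η / 2)) :=
      Real.rpow_le_rpow_of_exponent_le hUr (by linarith)
    rw [Real.rpow_neg_one] at this
    rw [div_eq_mul_inv]
    linarith
  have b3' : ‖∑ n ∈ Ioc (U ^ 3) (3 * U ^ 3), ((((Λ - FU U) * BU U) n : ℝ) : ℂ) * e (c / n)‖ ≤ ε / 2 * P := by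
    rw [← pow_le_pow_iff_left₀ (norm_nonneg _) (by positivity) (two_ne_zero)]
    calc _ ≤ _ := b3
      _ ≤ (36 * C * XU η U + 9 * XU η U) * P ^ 2 * lU U ^ 7 := by gcongr
      _ = (36 * C + 9) * P ^ 2 * (XU η U * lU U ^ 7) := by ring
      _ ≤ (36 * C + 9) * P ^ 2 * (ε ^ 2 / (4 * (36 * C + 9))) := by
        gcongr
        exact hsmall.trans (min_le_right _ _)
      _ = (ε / 2 * P) ^ 2 := by field_simp; norm_num
  calc _ ≤ ‖∑ n ∈ Ioc (U ^ 3) (3 * U ^ 3), (((GU U * log) n : ℝ) : ℂ) * e (c / n)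
        - ∑ n ∈ Ioc (U ^ 3) (3 * U ^ 3), (((FU U * GU U * (ζ : ArithmeticFunction ℝ)) n : ℝ) : ℂ) * e (c / n)‖
        + ‖∑ n ∈ Ioc (U ^ 3) (3 * U ^ 3), ((((Λ - FU U) * BU U) n : ℝ) : ℂ) * e (c / n)‖ := norm_add_le _ _
    _ ≤ (2 * C * P * XU η U * lU U ^ 2 + C * P * XU η U * lU U ^ 2) + ε / 2 * P := by
      refine add_le_add ((norm_sub_le _ _).trans (add_le_add b1 b2)) b3'
    _ ≤ ε / 2 * P + ε / 2 * P := by gcongr
    _ = ε * P := by ring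

end Pool.Agent.StSP
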