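import Mathlib
import Pool.Agent.StSP.ExpSum

/-! For `s, N` of polynomial size in `U` with `N ≥ 5 s`, not all primes `p ∈ (U^3, 3U^3]` satisfy
`s mod p ≤ N mod p`. -/

namespace Pool.Agent.StSP

open Finset ArithmeticFunction Filter

/-- short Dirichlet kernel -/
noncomputable def D (x : ℝ) : ℂ := ∑ j ∈ range 5, e (j * x)

lemma norm_D_le (x : ℝ) : ‖D x‖ ≤ 5 := by
  unfold D
  refine (norm_sum_le _ _).trans ?_
  simp [norm_e]

lemma D_mul (x : ℝ) : D x * (e x - 1) = e (5 * x) - 1 := by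
  unfold D
  simp only [sum_range_succ, range_zero, sum_empty]
  have h2 : e (2 * x) = e x * e x := by rw [← e_add]; congr 1; ring
  have h3 : e (3 * x) = e x * e x * e x := by rw [← e_add, ← e_add]; congr 1; ring
  have h4 : e (4 * x) = e x * e x * e x * e x := by rw [← e_add, ← e_add, ← e_add]; congr 1; ring
  have h5 : e (5 * x) = e x * e x * e x * e x * e x := by
    rw [← e_add, ← e_add, ← e_add, ← e_add]; congr 1; ring
  push_cast
  rw [h2, h3, h4, h5, zero_mul, e_zero, one_mul]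
  ring

lemma norm_e_sub_one_sq (x : ℝ) : ‖e x - 1‖ ^ 2 = 2 - 2 * Real.cos (2 * Real.pi * x) := by
  unfold e
  rw [Complex.norm_exp_I_mul_ofReal_sub_one, Real.norm_eq_abs, sq_abs, mul_pow,
    Real.sin_sq_eq_half_sub]
  have : 2 * (2 * Real.pi * x / 2) = 2 * Real.pi * x := by ring
  rw [this]; ring

lemma D_sq_le (x : ℝ) (hx : Real.cos (2 * Real.pi * x) ≤ 0) : ‖D x‖ ^ 2 ≤ 2 := by
  have h1 := congrArg (fun z => ‖z‖ ^ 2) (D_mul x)
  simp only [norm_mul, mul_pow, norm_e_sub_one_sq] at h1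
  have h2 := Real.neg_one_le_cos (2 * Real.pi * (5 * x))
  have h3 : ‖D x‖ ^ 2 * 2 ≤ ‖D x‖ ^ 2 * (2 - 2 * Real.cos (2 * Real.pi * x)) := by
    gcongr; linarith
  linarith

lemma cos_nonpos_of_fract (x : ℝ) (h1 : 1 / 4 ≤ Int.fract x) (h2 : Int.fract x ≤ 3 / 4) :
    Real.cos (2 * Real.pi * x) ≤ 0 := by
  have h : 2 * Real.pi * x = 2 * Real.pi * Int.fract x + ⌊x⌋ * (2 * Real.pi) := by
    have := Int.fract_add_floor x
    nth_rewrite 1 [← this]; ring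
  rw [h, Real.cos_add_int_mul_two_pi]
  have := Real.pi_pos
  apply Real.cos_nonpos_of_pi_div_two_le_of_le <;> nlinarith

/-- `{a/p} < 1/2` gives small `D (a/p - 3/4)`. -/
lemma D_small_left (x : ℝ) (h : Int.fract x < 1 / 2) : ‖D (x - 3 / 4)‖ ^ 2 ≤ 2 := by
  apply D_sq_le
  have h0 := Int.fract_nonneg x
  have h1 : Int.fract (x - 3 / 4) = Int.fract x + 1 / 4 := by
    rw [Int.fract_eq_iff]
    refine ⟨by linarith, by linarith, ⌊x⌋ - 1, ?_⟩
    have := Int.fract_add_floor x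
    push_cast; linarith
  apply cos_nonpos_of_fract <;> rw [h1] <;> linarith

lemma D_small_right (x : ℝ) (h : 1 / 2 ≤ Int.fract x) : ‖D (x - 1 / 4)‖ ^ 2 ≤ 2 := by
  apply D_sq_le
  have h0 := Int.fract_lt_one x
  have h1 : Int.fract (x - 1 / 4) = Int.fract x - 1 / 4 := by
    rw [Int.fract_eq_iff]
    refine ⟨by linarith, by linarith, ⌊x⌋, ?_⟩
    have := Int.fract_add_floor x
    linarith
  apply cos_nonpos_of_fract <;> rw [h1] <;> linarith

lemma fract_nat_div (a p : ℕ) : Int.fract ((a:ℝ) / p) = ((a % p : ℕ) : ℝ) / p :=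
  Int.fract_div_natCast_eq_div_natCast_mod

/-- pointwise inequality at primes with domination -/
lemma prime_ineq (s N p : ℕ) (hp : 0 < p) (h : s % p ≤ N % p) :
    ‖D ((s:ℝ) / p - 3 / 4)‖ ^ 2 * ‖D ((N:ℝ) / p - 1 / 4)‖ ^ 2
      ≤ 2 * (‖D ((s:ℝ) / p - 3 / 4)‖ ^ 2 + ‖D ((N:ℝ) / p - 1 / 4)‖ ^ 2) := by
  have hp0 : (0:ℝ) < p := by exact_mod_cast hp
  have hle : Int.fract ((s:ℝ) / p) ≤ Int.fract ((N:ℝ) / p) := by
    rw [fract_nat_div, fract_nat_div]; gcongr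
  rcases lt_or_ge (Int.fract ((s:ℝ) / p)) (1 / 2) with h1 | h1
  · have h2 := D_small_left _ h1
    have h3 : 0 ≤ ‖D ((N:ℝ) / p - 1 / 4)‖ ^ 2 := by positivity
    have h4 : 0 ≤ ‖D ((s:ℝ) / p - 3 / 4)‖ ^ 2 := by positivity
    nlinarith
  · have h2 := D_small_right _ (h1.trans hle)
    have h3 : 0 ≤ ‖D ((N:ℝ) / p - 1 / 4)‖ ^ 2 := by positivity
    have h4 : 0 ≤ ‖D ((s:ℝ) / p - 3 / 4)‖ ^ 2 := by positivity
    nlinarith

/-- expansion of `|D|^2` -/
lemma D_sq_expand (x : ℝ) : ((‖D x‖ ^ 2 : ℝ) : ℂ) = ∑ i ∈ range 5, ∑ j ∈ range 5, e (((i:ℝ) - j) * x) := by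
  push_cast
  rw [← Complex.mul_conj']
  unfold D
  rw [map_sum, sum_mul_sum]
  refine sum_congr rfl fun i _ => sum_congr rfl fun j _ => ?_
  rw [e_mul_conj]; congr 1; ring

/-- the weighted sum over the interval -/
noncomputable def TU (U : ℕ) (c : ℝ) : ℂ := ∑ n ∈ Ioc (U ^ 3) (3 * U ^ 3), ((Λ n : ℝ) : ℂ) * e (c / n)

noncomputable def PsiU (U : ℕ) : ℝ := ∑ n ∈ Ioc (U ^ 3) (3 * U ^ 3), Λ n

lemma TU_zero (U : ℕ) : TU U 0 = (PsiU U : ℂ) := by
  unfold TU PsiU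
  push_cast
  refine sum_congr rfl fun n _ => ?_
  rw [zero_div, e_zero, mul_one]

lemma sum_one_kernel (U : ℕ) (a t B : ℝ)
    (hB : ∀ i ∈ range 5, ∀ j ∈ range 5, i ≠ j → ‖TU U (((i:ℝ) - j) * a)‖ ≤ B) (hB0 : 0 ≤ B) :
    |∑ n ∈ Ioc (U ^ 3) (3 * U ^ 3), Λ n * ‖D (a / n - t)‖ ^ 2 - 5 * PsiU U| ≤ 25 * B := by
  have h1 : ((∑ n ∈ Ioc (U ^ 3) (3 * U ^ 3), Λ n * ‖D (a / n - t)‖ ^ 2 : ℝ) : ℂ)
      = ∑ i ∈ range 5, ∑ j ∈ range 5, e (-(((i:ℝ) - j) * t)) * TU U (((i:ℝ) - j) * a) := by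
    rw [Complex.ofReal_sum]
    have : ∀ n : ℕ, ((Λ n * ‖D (a / n - t)‖ ^ 2 : ℝ) : ℂ) = ∑ i ∈ range 5, ∑ j ∈ range 5,
        e (-(((i:ℝ) - j) * t)) * (((Λ n : ℝ) : ℂ) * e (((i:ℝ) - j) * a / n)) := by
      intro n
      rw [Complex.ofReal_mul, D_sq_expand, mul_sum]
      refine sum_congr rfl fun i _ => ?_
      rw [mul_sum]
      refine sum_congr rfl fun j _ => ?_
      have : ((i:ℝ) - j) * (a / n - t) = -(((i:ℝ) - j) * t) + ((i:ℝ) - j) * a / n := by ring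
      rw [this, e_add]; ring
    simp_rw [this]
    rw [sum_comm]
    refine sum_congr rfl fun i _ => ?_
    rw [sum_comm]
    refine sum_congr rfl fun j _ => ?_
    rw [← mul_sum]; rfl
  have h2 : ((5 * PsiU U : ℝ) : ℂ) = ∑ i ∈ range 5, ∑ j ∈ range 5, if i = j then (PsiU U : ℂ) else 0 := by
    rw [sum_congr rfl (fun i hi => by rw [sum_ite_eq, if_pos hi])]
    simp
  have h3 : |∑ n ∈ Ioc (U ^ 3) (3 * U ^ 3), Λ n * ‖D (a / n - t)‖ ^ 2 - 5 * PsiU U|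
      = ‖((∑ n ∈ Ioc (U ^ 3) (3 * U ^ 3), Λ n * ‖D (a / n - t)‖ ^ 2 : ℝ) : ℂ) - ((5 * PsiU U : ℝ) : ℂ)‖ := by
    rw [← Complex.ofReal_sub, Complex.norm_real, Real.norm_eq_abs]
  rw [h3, h1, h2, ← sum_sub_distrib]
  simp_rw [← sum_sub_distrib]
  calc _ ≤ ∑ i ∈ range 5, ∑ j ∈ range 5, B := by
        refine (norm_sum_le _ _).trans (sum_le_sum fun i hi => (norm_sum_le _ _).trans
          (sum_le_sum fun j hj => ?_))
        by_cases hij : i = j
        · subst hij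
          simp [e_zero, TU_zero, hB0]
        · rw [if_neg hij, sub_zero, norm_mul, norm_e, one_mul]
          exact hB i hi j hj hij
    _ = 25 * B := by simp; ring

lemma sum_two_kernel (U : ℕ) (a b B : ℝ) (t u : ℝ)
    (hB : ∀ i ∈ range 5, ∀ j ∈ range 5, ∀ k ∈ range 5, ∀ l ∈ range 5, ¬ (i = j ∧ k = l) →
      ‖TU U (((i:ℝ) - j) * a + ((k:ℝ) - l) * b)‖ ≤ B) (hB0 : 0 ≤ B) :
    |∑ n ∈ Ioc (U ^ 3) (3 * U ^ 3), Λ n * (‖D (a / n - t)‖ ^ 2 * ‖D (b / n - u)‖ ^ 2) - 25 * PsiU U|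
      ≤ 625 * B := by
  have h1 : ((∑ n ∈ Ioc (U ^ 3) (3 * U ^ 3), Λ n * (‖D (a / n - t)‖ ^ 2 * ‖D (b / n - u)‖ ^ 2) : ℝ) : ℂ)
      = ∑ i ∈ range 5, ∑ j ∈ range 5, ∑ k ∈ range 5, ∑ l ∈ range 5,
        e (-(((i:ℝ) - j) * t + ((k:ℝ) - l) * u)) * TU U (((i:ℝ) - j) * a + ((k:ℝ) - l) * b) := by
    rw [Complex.ofReal_sum]
    have : ∀ n : ℕ, ((Λ n * (‖D (a / n - t)‖ ^ 2 * ‖D (b / n - u)‖ ^ 2) : ℝ) : ℂ)
        = ∑ i ∈ range 5, ∑ j ∈ range 5, ∑ k ∈ range 5, ∑ l ∈ range 5,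
        e (-(((i:ℝ) - j) * t + ((k:ℝ) - l) * u)) *
          (((Λ n : ℝ) : ℂ) * e ((((i:ℝ) - j) * a + ((k:ℝ) - l) * b) / n)) := by
      intro n
      rw [Complex.ofReal_mul, Complex.ofReal_mul, D_sq_expand, D_sq_expand, sum_mul, mul_sum]
      refine sum_congr rfl fun i _ => ?_
      rw [sum_mul, mul_sum]
      refine sum_congr rfl fun j _ => ?_
      rw [mul_sum, mul_sum]
      refine sum_congr rfl fun k _ => ?_
      rw [mul_sum, mul_sum]
      refine sum_congr rfl fun l _ => ?_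
      rw [← e_add, mul_left_comm, ← e_add]
      congr 2
      ring
    simp_rw [this]
    rw [sum_comm]
    refine sum_congr rfl fun i _ => ?_
    rw [sum_comm]
    refine sum_congr rfl fun j _ => ?_
    rw [sum_comm]
    refine sum_congr rfl fun k _ => ?_
    rw [sum_comm]
    refine sum_congr rfl fun l _ => ?_
    rw [← mul_sum]; rfl
  have h2 : ((25 * PsiU U : ℝ) : ℂ) = ∑ i ∈ range 5, ∑ j ∈ range 5, ∑ k ∈ range 5, ∑ l ∈ range 5,
      if i = j ∧ k = l then (PsiU U : ℂ) else 0 := by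
    have e1 : ∀ i j : ℕ, ∑ k ∈ range 5, ∑ l ∈ range 5, (if i = j ∧ k = l then (PsiU U : ℂ) else 0)
        = if i = j then 5 * (PsiU U : ℂ) else 0 := by
      intro i j
      by_cases hij : i = j
      · simp only [hij, true_and, if_true]
        rw [sum_congr rfl (fun i hi => by rw [sum_ite_eq, if_pos hi])]
        simp
      · simp [hij]
    simp_rw [e1]
    rw [sum_congr rfl (fun i hi => by rw [sum_ite_eq, if_pos hi])]
    simp; ring
  have h3 : |∑ n ∈ Ioc (U ^ 3) (3 * U ^ 3), Λ n * (‖D (a / n - t)‖ ^ 2 * ‖D (b / n - u)‖ ^ 2) - 25 * PsiU U|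
      = ‖((∑ n ∈ Ioc (U ^ 3) (3 * U ^ 3), Λ n * (‖D (a / n - t)‖ ^ 2 * ‖D (b / n - u)‖ ^ 2) : ℝ) : ℂ)
        - ((25 * PsiU U : ℝ) : ℂ)‖ := by
    rw [← Complex.ofReal_sub, Complex.norm_real, Real.norm_eq_abs]
  rw [h3, h1, h2, ← sum_sub_distrib]
  simp_rw [← sum_sub_distrib]
  calc _ ≤ ∑ i ∈ range 5, ∑ j ∈ range 5, ∑ k ∈ range 5, ∑ l ∈ range 5, B := by
        refine (norm_sum_le _ _).trans (sum_le_sum fun i hi => (norm_sum_le _ _).trans
          (sum_le_sum fun j hj => (norm_sum_le _ _).trans (sum_le_sum fun k hk =>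
            (norm_sum_le _ _).trans (sum_le_sum fun l hl => ?_))))
        by_cases hij : i = j ∧ k = l
        · rw [if_pos hij]
          obtain ⟨rfl, rfl⟩ := hij
          simp [e_zero, TU_zero, hB0]
        · rw [if_neg hij, sub_zero, norm_mul, norm_e, one_mul]
          exact hB i hi j hj k hk l hl hij
    _ = 625 * B := by simp; ring

/-- contribution of the prime powers -/
noncomputable def RU (U : ℕ) : ℝ := ∑ n ∈ (Ioc (U ^ 3) (3 * U ^ 3)).filter (fun n => ¬ n.Prime), Λ n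

lemma RU_le (U : ℕ) (hU : 1 ≤ U) :
    RU U ≤ 2 * √((3 * U ^ 3 : ℕ) : ℝ) * Real.log ((3 * U ^ 3 : ℕ) : ℝ) := by
  have h1 : (1:ℝ) ≤ ((3 * U ^ 3 : ℕ) : ℝ) := by
    have : 1 ≤ U ^ 3 := Nat.one_le_pow _ _ (by omega)
    exact_mod_cast (by omega : 1 ≤ 3 * U ^ 3)
  refine le_trans ?_ (Chebyshev.psi_sub_theta_le h1)
  rw [Chebyshev.psi_sub_theta_eq_sum_not_prime, Nat.floor_natCast]
  unfold RU
  apply sum_le_sum_of_subset_of_nonneg
  · intro x hx
    simp only [mem_filter, mem_Ioc] at hx ⊢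
    exact ⟨⟨by omega, hx.1.2⟩, hx.2⟩
  · intro i _ _; exact vonMangoldt_nonneg

lemma PsiU_eq (U : ℕ) : PsiU U = Chebyshev.psi ((3 * U ^ 3 : ℕ) : ℝ) - Chebyshev.psi ((U ^ 3 : ℕ) : ℝ) := by
  unfold PsiU Chebyshev.psi
  rw [Nat.floor_natCast, Nat.floor_natCast]
  have : Ioc 0 (3 * U ^ 3) = Ioc 0 (U ^ 3) ∪ Ioc (U ^ 3) (3 * U ^ 3) := by
    rw [Ioc_union_Ioc_eq_Ioc (by omega) (by omega)]
  rw [this, sum_union]
  · ring
  · rw [disjoint_left]; intro x hx hx'; simp only [mem_Ioc] at hx hx'; omega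

/-- lower bound for the number of primes and upper bound for prime powers -/
lemma size_bounds : ∃ U0 : ℕ, 13 ≤ U0 ∧ ∀ U ≥ U0,
    (3 / 5 : ℝ) * (U:ℝ) ^ 3 ≤ PsiU U ∧ 625 * RU U ≤ (U:ℝ) ^ 3 := by
  -- logs are negligible
  have hlog : ∀ᶠ y : ℝ in atTop, Real.log y ≤ (1 / 15000) * √y := by
    have h := (isLittleO_log_rpow_atTop (r := 1 / 2) (by norm_num)).bound (c := 1 / 15000) (by norm_num)
    filter_upwards [h, eventually_ge_atTop 1] with y hy hy1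
    rw [Real.norm_eq_abs, Real.norm_eq_abs, abs_of_nonneg (Real.log_nonneg hy1),
      abs_of_nonneg (by positivity), ← Real.sqrt_eq_rpow] at hy
    exact hy
  have htend : Tendsto (fun U : ℕ => ((3 * U ^ 3 : ℕ) : ℝ)) atTop atTop := by
    apply tendsto_natCast_atTop_atTop.comp
    apply tendsto_atTop_mono (f := fun n : ℕ => n) _ tendsto_id
    intro n
    have : n ≤ n ^ 3 := Nat.le_self_pow (by norm_num) n
    omega
  have hev := ((htend.eventually hlog).and (htend.eventually (eventually_ge_atTop 15000))).and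
    (eventually_ge_atTop 13)
  obtain ⟨U0, hU0⟩ := eventually_atTop.1 hev
  refine ⟨max U0 13, le_max_right _ _, fun U hU => ?_⟩
  obtain ⟨⟨h1, h2⟩, h3⟩ := hU0 U (le_trans (le_max_left _ _) hU)
  set y : ℝ := ((3 * U ^ 3 : ℕ) : ℝ) with hy
  have hyx : y = 3 * (U:ℝ) ^ 3 := by rw [hy]; push_cast; ring
  have hy0 : 0 < y := by linarith
  have hsy : √y * √y = y := Real.mul_self_sqrt hy0.le
  have hsy1 : 1 ≤ √y := by rw [Real.one_le_sqrt]; linarith
  have hly : 0 ≤ Real.log y := Real.log_nonneg (by linarith)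
  have h4 : √y * Real.log y ≤ y / 15000 := by nlinarith
  have hx0 : (0:ℝ) < (U:ℝ) ^ 3 := by nlinarith
  constructor
  · rw [PsiU_eq]
    have h5 := Chebyshev.psi_ge (3 * U ^ 3)
    rw [← hy] at h5
    have hx1 : (1:ℝ) ≤ ((U ^ 3 : ℕ) : ℝ) := by push_cast; nlinarith
    have h6 := Chebyshev.psi_le hx1
    set x : ℝ := ((U ^ 3 : ℕ) : ℝ) with hx
    have hxx : x = (U:ℝ) ^ 3 := by rw [hx]; push_cast; ring
    have hxy : x ≤ y := by rw [hyx, hxx]; linarith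
    have h7 : 2 * √x * Real.log x ≤ 2 * √y * Real.log y := by
      have : 0 ≤ Real.log x := Real.log_nonneg hx1
      gcongr
    have h8 : Real.log (y + 1) ≤ 2 * (y / 15000) := by
      have e1 : Real.log (y + 1) ≤ Real.log (2 * y) := Real.log_le_log (by linarith) (by linarith)
      have e2 : Real.log (2 * y) = Real.log 2 + Real.log y := Real.log_mul (by norm_num) (by linarith)
      have e3 : Real.log 2 ≤ 1 := by have := Real.log_two_lt_d9; linarith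
      have e4 : Real.log y ≤ √y * Real.log y := by nlinarith
      linarith
    have h9 : Real.log 4 = 2 * Real.log 2 := by
      rw [show (4:ℝ) = 2 ^ 2 by norm_num, Real.log_pow]; push_cast; ring
    rw [h9] at h6
    have h10 := Real.log_two_gt_d9
    have h11 : y * Real.log 2 - Real.log (y + 1) - (2 * Real.log 2 * x + 2 * √x * Real.log x)
        ≤ Chebyshev.psi y - Chebyshev.psi x := by
      have := h5
      linarith
    have h12 : y * Real.log 2 - 2 * Real.log 2 * x = x * Real.log 2 := by rw [hyx, hxx]; ring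
    rw [← hxx]
    have h13 : y = 3 * x := by rw [hyx, hxx]
    nlinarith
  · have h5 := RU_le U (by omega)
    rw [← hy] at h5
    nlinarith

end Pool.Agent.StSP
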