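import Mathlib
import Pool.Agent.StSP.Joint

/-! For `s, N` of polynomial size in `U` with `N ≥ 5 s`, some prime `p ∈ (U^3, 3U^3]` has
`N mod p < s mod p`. -/

namespace Pool.Agent.StSP

open Finset ArithmeticFunction Filter

lemma freq_bounds (U A s N : ℕ) (hU : 13 ≤ U) (hs : U ^ 9 ≤ s) (hN : 5 * s ≤ N) (hNU : N ≤ U ^ A)
    (i j k l : ℕ) (hi : i ∈ range 5) (hj : j ∈ range 5) (hk : k ∈ range 5) (hl : l ∈ range 5)
    (hne : ¬ (i = j ∧ k = l)) :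
    (U:ℝ) ^ 9 ≤ |((i:ℝ) - j) * s + ((k:ℝ) - l) * N| ∧
    |((i:ℝ) - j) * s + ((k:ℝ) - l) * N| ≤ (U:ℝ) ^ (A + 2) := by
  rw [mem_range] at hi hj hk hl
  have hsr : (U:ℝ) ^ 9 ≤ s := by exact_mod_cast hs
  have hNr : 5 * (s:ℝ) ≤ N := by exact_mod_cast hN
  have hNUr : (N:ℝ) ≤ (U:ℝ) ^ A := by exact_mod_cast hNU
  have hU13 : (13:ℝ) ≤ U := by exact_mod_cast hU
  have hs0 : (0:ℝ) ≤ s := by positivity
  have hij : |(i:ℝ) - j| ≤ 4 := by
    have h1 : (i:ℝ) ≤ 4 := by exact_mod_cast (by omega : i ≤ 4)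
    have h2 : (j:ℝ) ≤ 4 := by exact_mod_cast (by omega : j ≤ 4)
    have h3 : (0:ℝ) ≤ i := by positivity
    have h4 : (0:ℝ) ≤ j := by positivity
    rw [abs_le]; constructor <;> linarith
  have hkl : |(k:ℝ) - l| ≤ 4 := by
    have h1 : (k:ℝ) ≤ 4 := by exact_mod_cast (by omega : k ≤ 4)
    have h2 : (l:ℝ) ≤ 4 := by exact_mod_cast (by omega : l ≤ 4)
    have h3 : (0:ℝ) ≤ k := by positivity
    have h4 : (0:ℝ) ≤ l := by positivity
    rw [abs_le]; constructor <;> linarith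
  constructor
  · by_cases hkl' : k = l
    · subst hkl'
      have hij' : i ≠ j := fun h => hne ⟨h, rfl⟩
      have h1 : (1:ℝ) ≤ |(i:ℝ) - j| := by
        have : (1:ℤ) ≤ |(i:ℤ) - j| := by apply Int.one_le_abs; omega
        exact_mod_cast this
      simp only [sub_self, zero_mul, add_zero]
      rw [abs_mul, abs_of_nonneg hs0]
      nlinarith
    · have h1 : (1:ℝ) ≤ |(k:ℝ) - l| := by
        have : (1:ℤ) ≤ |(k:ℤ) - l| := by apply Int.one_le_abs; omega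
        exact_mod_cast this
      have h2 : |((k:ℝ) - l) * N| - |((i:ℝ) - j) * s| ≤ |((i:ℝ) - j) * s + ((k:ℝ) - l) * N| := by
        have := abs_sub_abs_le_abs_sub (((k:ℝ) - l) * N) (-(((i:ℝ) - j) * s))
        rw [abs_neg, sub_neg_eq_add, add_comm] at this
        exact this
      rw [abs_mul, abs_mul, abs_of_nonneg hs0, abs_of_nonneg (by linarith : (0:ℝ) ≤ N)] at h2
      nlinarith
  · have h1 : |((i:ℝ) - j) * s + ((k:ℝ) - l) * N| ≤ |((i:ℝ) - j) * s| + |((k:ℝ) - l) * N| := abs_add_le _ _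
    rw [abs_mul, abs_mul, abs_of_nonneg hs0, abs_of_nonneg (by linarith : (0:ℝ) ≤ N)] at h1
    have h2 : |((i:ℝ) - j)| * s + |((k:ℝ) - l)| * N ≤ 8 * N := by nlinarith
    calc _ ≤ 8 * (N:ℝ) := h1.trans h2
      _ ≤ (U:ℝ) ^ 2 * (U:ℝ) ^ A := by
        have : (8:ℝ) ≤ (U:ℝ) ^ 2 := by nlinarith
        gcongr
      _ = _ := by ring

theorem exists_bad_prime (A : ℕ) : ∃ U0 : ℕ, ∀ U ≥ U0, ∀ s N : ℕ, U ^ 9 ≤ s → 5 * s ≤ N → N ≤ U ^ A →
    ∃ p, p.Prime ∧ U ^ 3 < p ∧ p ≤ 3 * U ^ 3 ∧ N % p < s % p := by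
  obtain ⟨U1, hU1⟩ := expsum (A + 2) (by omega) (1 / 725) (by norm_num)
  obtain ⟨U2, hU13, hU2⟩ := size_bounds
  refine ⟨max U1 U2, fun U hU s N hs hN hNU => ?_⟩
  have hUU1 : U1 ≤ U := le_trans (le_max_left _ _) hU
  have hUU2 : U2 ≤ U := le_trans (le_max_right _ _) hU
  by_contra hcon
  push Not at hcon
  obtain ⟨hpsi, hR⟩ := hU2 U hUU2
  have hU' : 13 ≤ U := hU13.trans hUU2
  have hP0 : (0:ℝ) < (U:ℝ) ^ 3 := by
    have : (0:ℝ) < U := by exact_mod_cast (by omega : 0 < U)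
    positivity
  set B : ℝ := 1 / 725 * (U:ℝ) ^ 3 with hBdef
  have hB0 : 0 ≤ B := by positivity
  have hT : ∀ i ∈ range 5, ∀ j ∈ range 5, ∀ k ∈ range 5, ∀ l ∈ range 5, ¬ (i = j ∧ k = l) →
      ‖TU U (((i:ℝ) - j) * s + ((k:ℝ) - l) * N)‖ ≤ B := by
    intro i hi j hj k hk l hl hne
    obtain ⟨h1, h2⟩ := freq_bounds U A s N hU' hs hN hNU i j k l hi hj hk hl hne
    exact hU1 U hUU1 _ h1 h2
  have h22 := sum_two_kernel U s N B (3 / 4) (1 / 4) hT hB0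
  have h11 := sum_one_kernel U s (3 / 4) B (by
    intro i hi j hj hij
    have := hT i hi j hj 0 (by simp) 0 (by simp) (fun h => hij h.1)
    simpa using this) hB0
  have h12 := sum_one_kernel U N (1 / 4) B (by
    intro i hi j hj hij
    have := hT 0 (by simp) 0 (by simp) i hi j hj (fun h => hij h.2)
    simpa using this) hB0
  set I := Ioc (U ^ 3) (3 * U ^ 3) with hI
  set a1 : ℕ → ℝ := fun n => ‖D ((s:ℝ) / n - 3 / 4)‖ ^ 2 with ha1
  set a2 : ℕ → ℝ := fun n => ‖D ((N:ℝ) / n - 1 / 4)‖ ^ 2 with ha2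
  have ha1n : ∀ n, 0 ≤ a1 n := fun n => by positivity
  have ha2n : ∀ n, 0 ≤ a2 n := fun n => by positivity
  have ha1b : ∀ n, a1 n ≤ 25 := fun n => by
    have := norm_D_le ((s:ℝ) / n - 3 / 4)
    have h0 := norm_nonneg (D ((s:ℝ) / n - 3 / 4))
    simp only [ha1]; nlinarith
  have ha2b : ∀ n, a2 n ≤ 25 := fun n => by
    have := norm_D_le ((N:ℝ) / n - 1 / 4)
    have h0 := norm_nonneg (D ((N:ℝ) / n - 1 / 4))
    simp only [ha2]; nlinarith
  have hmain : ∑ n ∈ I, Λ n * (a1 n * a2 n) ≤ 2 * (∑ n ∈ I, Λ n * a1 n + ∑ n ∈ I, Λ n * a2 n) + 625 * RU U := by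
    have h3 : 625 * RU U = ∑ n ∈ I, if n.Prime then 0 else 625 * Λ n := by
      unfold RU
      rw [mul_sum, sum_filter]
      refine sum_congr rfl fun n _ => ?_
      by_cases hp : n.Prime <;> simp [hp]
    rw [h3, ← sum_add_distrib, mul_sum, ← sum_add_distrib]
    refine sum_le_sum fun n hn => ?_
    rw [hI, mem_Ioc] at hn
    have hL : 0 ≤ Λ n := vonMangoldt_nonneg
    by_cases hp : n.Prime
    · rw [if_pos hp]
      have h4 := prime_ineq s N n hp.pos (hcon n hp hn.1 hn.2)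
      have h5 : a1 n * a2 n ≤ 2 * (a1 n + a2 n) := h4
      nlinarith
    · rw [if_neg hp]
      have h6 : a1 n * a2 n ≤ 625 := by
        have := ha1n n; have := ha2n n; have := ha1b n; have := ha2b n
        nlinarith
      have h7 : 0 ≤ Λ n * a1 n := mul_nonneg hL (ha1n n)
      have h8 : 0 ≤ Λ n * a2 n := mul_nonneg hL (ha2n n)
      nlinarith
  rw [abs_le] at h22 h11 h12
  have hB' : 725 * B = (U:ℝ) ^ 3 := by rw [hBdef]; ring
  linarith [h22.1, h11.2, h12.2]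

end Pool.Agent.StSP
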