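import Mathlib

/-! Steiner systems, the divisibility condition, and its consequences for residues. -/

namespace Pool.Agent.StSP

open Finset

/-- `B` is a Steiner system `S(n,q,r)` on the point set `Fin n`: all blocks have `q` elements and
every `r`-element set of points lies in exactly one block. -/
def IsSteinerSystem (n q r : ℕ) (B : Finset (Finset (Fin n))) : Prop :=
  (∀ b ∈ B, b.card = q) ∧ ∀ T : Finset (Fin n), T.card = r → ∃! b, b ∈ B ∧ T ⊆ b

/-- There is a Steiner system `S(n,q,r)`. -/
def SteinerExists (n q r : ℕ) : Prop := ∃ B : Finset (Finset (Fin n)), IsSteinerSystem n q r B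

/-- The divisibility condition (D): `C(q-i,r-i)` divides `C(n-i,r-i)` for all `0 ≤ i < r`. -/
def DivisibilityCondition (n q r : ℕ) : Prop :=
  ∀ i < r, (q - i).choose (r - i) ∣ (n - i).choose (r - i)

lemma card_between {α : Type*} [DecidableEq α] (I b : Finset α) (h : I ⊆ b) (r : ℕ) (hr : #I ≤ r) :
    #((powersetCard r b).filter (fun T => I ⊆ T)) = (#b - #I).choose (r - #I) := by
  rw [← card_sdiff_of_subset h, ← card_powersetCard]
  apply Finset.card_nbij' (i := fun T => T \ I) (j := fun S => S ∪ I)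
  · intro T hT
    rw [mem_coe, mem_filter, mem_powersetCard] at hT
    obtain ⟨⟨h1, h2⟩, h3⟩ := hT
    rw [mem_coe, mem_powersetCard]
    exact ⟨sdiff_subset_sdiff h1 le_rfl, by rw [card_sdiff_of_subset h3, h2]⟩
  · intro S hS
    rw [mem_coe, mem_powersetCard] at hS
    obtain ⟨h1, h2⟩ := hS
    have hd : Disjoint S I := (subset_sdiff.1 h1).2
    rw [mem_coe, mem_filter, mem_powersetCard]
    refine ⟨⟨union_subset ((subset_sdiff.1 h1).1) h, ?_⟩, subset_union_right⟩
    rw [card_union_of_disjoint hd, h2]; omega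
  · intro T hT
    rw [mem_coe, mem_filter, mem_powersetCard] at hT
    exact sdiff_union_of_subset hT.2
  · intro S hS
    rw [mem_coe, mem_powersetCard] at hS
    have hd : Disjoint S I := (subset_sdiff.1 hS.1).2
    change (S ∪ I) \ I = S
    rw [union_sdiff_right, sdiff_eq_self_of_disjoint hd]

theorem steiner_div (n q r : ℕ) (hrn : r ≤ n) (h : SteinerExists n q r) :
    DivisibilityCondition n q r := by
  obtain ⟨B, hB, hU⟩ := h
  intro i hi
  obtain ⟨I, -, hI⟩ := exists_subset_card_eq (s := (univ : Finset (Fin n))) (n := i)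
    (by rw [card_univ, Fintype.card_fin]; omega)
  -- r-sets containing I
  have h1 : #((powersetCard r (univ : Finset (Fin n))).filter (fun T => I ⊆ T)) = (n - i).choose (r - i) := by
    rw [card_between I univ (subset_univ _) r (by omega), hI, card_univ, Fintype.card_fin]
  -- double counting
  have h2 : #((powersetCard r (univ : Finset (Fin n))).filter (fun T => I ⊆ T))
      = ∑ b ∈ B.filter (fun b => I ⊆ b), #((powersetCard r b).filter (fun T => I ⊆ T)) := by
    rw [← card_biUnion]
    · congr 1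
      ext T
      simp only [mem_filter, mem_powersetCard, subset_univ, true_and, mem_biUnion]
      constructor
      · rintro ⟨h3, h4⟩
        obtain ⟨b, ⟨hb, hTb⟩, -⟩ := hU T h3
        exact ⟨b, ⟨hb, h4.trans hTb⟩, ⟨hTb, h3⟩, h4⟩
      · rintro ⟨b, ⟨hb, hIb⟩, ⟨hTb, h3⟩, h4⟩
        exact ⟨h3, h4⟩
    · intro b hb b' hb' hne
      rw [Function.onFun, disjoint_left]
      intro T hT hT'
      rw [mem_coe, mem_filter] at hb hb'
      simp only [mem_filter, mem_powersetCard] at hT hT'
      obtain ⟨c, -, huniq⟩ := hU T hT.1.2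
      exact hne ((huniq b ⟨hb.1, hT.1.1⟩).trans (huniq b' ⟨hb'.1, hT'.1.1⟩).symm)
  rw [← h1, h2]
  apply dvd_sum
  intro b hb
  rw [mem_filter] at hb
  rw [card_between I b hb.2 r (by omega), hI, hB b hb.1]

/-- residues modulo small primes -/
theorem div_mod_le (n q r : ℕ) (hrq : r ≤ q) (hqn : q ≤ n) (h : DivisibilityCondition n q r)
    (p : ℕ) (hp : p.Prime) (hpr : p ≤ r) : (q - r) % p ≤ (n - r) % p := by
  set s := q - r with hs
  set N := n - r with hN
  rcases Nat.eq_zero_or_pos (s % p) with h0 | h0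
  · omega
  have hlt : s % p < p := Nat.mod_lt _ hp.pos
  set i := p - s % p with hi
  have hi1 : 1 ≤ i := by omega
  have hir : i ≤ r := by omega
  have hip : i < p := by omega
  have hdvd := h (r - i) (by omega)
  have e1 : q - (r - i) = s + i := by omega
  have e2 : n - (r - i) = N + i := by omega
  have e3 : r - (r - i) = i := by omega
  rw [e1, e2, e3] at hdvd
  have hd2 : (s + i).descFactorial i ∣ (N + i).descFactorial i := by
    rw [Nat.descFactorial_eq_factorial_mul_choose, Nat.descFactorial_eq_factorial_mul_choose]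
    exact Nat.mul_dvd_mul_left _ hdvd
  have hps : p ∣ s + i := by
    have e : s + i = p * (s / p + 1) := by
      have := Nat.div_add_mod s p
      rw [mul_add, mul_one]
      omega
    rw [e]; exact Dvd.intro _ rfl
  have hp1 : p ∣ (s + i).descFactorial i := by
    obtain ⟨j, hj⟩ := Nat.exists_eq_add_of_le' hi1
    rw [hj, ← add_assoc, Nat.succ_descFactorial_succ]
    rw [hj, ← add_assoc] at hps
    exact Dvd.dvd.mul_right hps _
  have hp2 : p ∣ (N + i).descFactorial i := hp1.trans hd2
  rw [Nat.descFactorial_eq_prod_range] at hp2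
  obtain ⟨j, hj, hpj⟩ := (hp.prime.dvd_finsetProd_iff _).1 hp2
  rw [mem_range] at hj
  have e4 : N + i - j = N + (i - j) := by omega
  rw [e4] at hpj
  -- N % p ≥ p - (i-j)
  have h5 : (N % p + (i - j)) % p = 0 := by
    rw [Nat.mod_add_mod]; exact Nat.mod_eq_zero_of_dvd hpj
  have h6 : N % p < p := Nat.mod_lt _ hp.pos
  have h7 : p ≤ N % p + (i - j) := by
    by_contra hc
    push Not at hc
    rw [Nat.mod_eq_of_lt hc] at h5
    omega
  omega

/-- (D) forces `n - r` to be much larger than `q - r` -/
theorem div_growth (n q r : ℕ) (hr : 2 ≤ r) (hrq : r ≤ q) (hqn : q < n)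
    (h : DivisibilityCondition n q r) (hs : 19 ≤ q - r) : 5 * (q - r) ≤ n - r := by
  set s := q - r with hsdef
  set N := n - r with hN
  have h1 := h (r - 1) (by omega)
  have h2 := h (r - 2) (by omega)
  have e1 : q - (r - 1) = s + 1 := by omega
  have e2 : n - (r - 1) = N + 1 := by omega
  have e3 : r - (r - 1) = 1 := by omega
  have e4 : q - (r - 2) = s + 2 := by omega
  have e5 : n - (r - 2) = N + 2 := by omega
  have e6 : r - (r - 2) = 2 := by omega
  rw [e1, e2, e3, Nat.choose_one_right, Nat.choose_one_right] at h1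
  rw [e4, e5, e6] at h2
  have h3 : (s + 2).descFactorial 2 ∣ (N + 2).descFactorial 2 := by
    rw [Nat.descFactorial_eq_factorial_mul_choose, Nat.descFactorial_eq_factorial_mul_choose]
    exact Nat.mul_dvd_mul_left _ h2
  have e7 : ∀ m : ℕ, (m + 2).descFactorial 2 = (m + 2) * (m + 1) := by
    intro m; simp [Nat.descFactorial]; ring
  rw [e7, e7] at h3
  obtain ⟨k, hk⟩ := h1
  rw [hk] at h3
  have h4 : (s + 2) ∣ k * (N + 2) := by
    have : (s + 2) * (s + 1) ∣ (k * (N + 2)) * (s + 1) := by
      have e8 : (N + 2) * ((s + 1) * k) = (k * (N + 2)) * (s + 1) := by ring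
      rwa [e8] at h3
    exact Nat.dvd_of_mul_dvd_mul_right (by omega) this
  have hk2 : 2 ≤ k := by
    by_contra hc
    have : k = 0 ∨ k = 1 := by omega
    rcases this with rfl | rfl <;> omega
  -- N + 2 = k (s+1) + 1 = k (s+2) - (k-1)
  obtain ⟨k', rfl⟩ := Nat.exists_eq_add_of_le' (show 1 ≤ k by omega)
  have h5 : (s + 2) ∣ (k' + 1) * k' := by
    have e9 : (k' + 1) * (N + 2) + (k' + 1) * k' = (s + 2) * ((k' + 1) * (k' + 1)) := by
      have : N + 2 = (s + 1) * (k' + 1) + 1 := by omega
      rw [this]; ring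
    have h6 : (s + 2) ∣ (k' + 1) * (N + 2) + (k' + 1) * k' := by rw [e9]; exact Dvd.intro _ rfl
    exact (Nat.dvd_add_right h4).1 h6
  have h7 : s + 2 ≤ (k' + 1) * k' := Nat.le_of_dvd (by nlinarith) h5
  have h8 : 5 ≤ k' := by
    by_contra hc
    have : k' ≤ 4 := by omega
    nlinarith
  nlinarith

end Pool.Agent.StSP
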