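import Mathlib
import Pool.Agent.StSP.BadPrime
import Pool.Agent.StSP.Steiner

/-! The divisibility condition forces `n` to be super-polynomial in `min r (q-r)`. -/

namespace Pool.Agent.StSP

open Finset

/-- threshold form -/
theorem threshold (C : ℕ) : ∃ K : ℕ, ∀ n q r : ℕ, r < q → q < n → K ≤ min r (q - r) →
    DivisibilityCondition n q r → (min r (q - r)) ^ C < n := by
  obtain ⟨U0, hU0⟩ := exists_bad_prime (18 * C)
  refine ⟨(U0 + 19) ^ 9, fun n q r hrq hqn hK hD => ?_⟩
  by_contra hcon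
  push Not at hcon
  set m := min r (q - r) with hm
  have hmr : m ≤ r := min_le_left _ _
  have hms : m ≤ q - r := min_le_right _ _
  -- U = floor of the ninth root
  set U := Nat.findGreatest (fun u => u ^ 9 ≤ m) m with hU
  have hUm : U ^ 9 ≤ m := by
    apply Nat.findGreatest_spec (P := fun u => u ^ 9 ≤ m) (Nat.zero_le m)
    simp
  have hlow : U0 + 19 ≤ U := by
    apply Nat.le_findGreatest
    · exact (Nat.le_self_pow (by norm_num) _).trans hK
    · exact hK
  have hUlt : m < (U + 1) ^ 9 := by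
    by_contra hc
    push Not at hc
    have h1 : U + 1 ≤ m := (Nat.le_self_pow (by norm_num) _).trans hc
    have h2 : U + 1 ≤ U := Nat.le_findGreatest h1 hc
    omega
  have hUU0 : U0 ≤ U := by omega
  have hU19 : 19 ≤ U := by omega
  have h19 : 19 ≤ m := hU19.trans ((Nat.le_self_pow (by norm_num) _).trans hUm)
  have hgrow := div_growth n q r (by omega) hrq.le hqn hD (by omega)
  have hup : n - r ≤ U ^ (18 * C) := by
    calc n - r ≤ n := Nat.sub_le _ _
      _ ≤ m ^ C := hcon
      _ ≤ ((U + 1) ^ 9) ^ C := Nat.pow_le_pow_left hUlt.le _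
      _ ≤ ((U ^ 2) ^ 9) ^ C := by
          apply Nat.pow_le_pow_left
          apply Nat.pow_le_pow_left
          nlinarith
      _ = U ^ (18 * C) := by rw [← pow_mul, ← pow_mul]; congr 1; ring
  obtain ⟨p, hp, -, hp2, hbad⟩ := hU0 U hUU0 (q - r) (n - r) (hUm.trans hms) hgrow hup
  have hpm : p ≤ m := by
    calc p ≤ 3 * U ^ 3 := hp2
      _ ≤ U ^ 6 * U ^ 3 := by
          apply Nat.mul_le_mul_right
          calc 3 ≤ U := by omega
            _ ≤ U ^ 6 := Nat.le_self_pow (by norm_num) _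
      _ = U ^ 9 := by ring
      _ ≤ m := hUm
  have := div_mod_le n q r hrq.le hqn.le hD p hp (hpm.trans hmr)
  omega

/-- finiteness form -/
theorem finite_form (C : ℕ) (P : ℕ → ℕ → ℕ → Prop)
    (hP : ∀ n q r, r < q → q < n → P n q r → DivisibilityCondition n q r) :
    {t : ℕ × ℕ × ℕ | t.2.2 < t.2.1 ∧ t.2.1 < t.1 ∧ t.1 ≤ (min t.2.2 (t.2.1 - t.2.2)) ^ C ∧
      P t.1 t.2.1 t.2.2}.Finite := by
  obtain ⟨K, hK⟩ := threshold C
  apply Set.Finite.subset (s := (Set.Iic (K ^ C)) ×ˢ (Set.Iic (K ^ C)) ×ˢ (Set.Iic (K ^ C)))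
  · exact (Set.finite_Iic _).prod ((Set.finite_Iic _).prod (Set.finite_Iic _))
  · rintro ⟨n, q, r⟩ ⟨h1, h2, h3, h4⟩
    simp only at h1 h2 h3 h4
    have hlt : min r (q - r) < K := by
      by_contra hc
      push Not at hc
      have := hK n q r h1 h2 hc (hP n q r h1 h2 h4)
      omega
    have hn : n ≤ K ^ C := h3.trans (Nat.pow_le_pow_left hlt.le _)
    simp only [Set.mem_prod, Set.mem_Iic]
    omega

end Pool.Agent.StSP
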